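import Pool.Agent.H.MP_a163f2_lc.Iface

/-!
# Block Z, part 9: generic filters over countable sets exist
-/

set_option autoImplicit false

namespace Pool.Agent.H.MP_a163f2_lc

/-- Rasiowa-Sikorski: every condition belongs to a generic filter. -/
theorem exists_generic {S : Set ZFSet.{0}} (hc : S.Countable) {P L : ZFSet.{0}}
    (hrefl : ∀ p ∈ P, ZFSet.pair p p ∈ L)
    (htrans : ∀ p ∈ P, ∀ q ∈ P, ∀ r ∈ P, ZFSet.pair p q ∈ L → ZFSet.pair q r ∈ L →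
      ZFSet.pair p r ∈ L) {p₀ : ZFSet.{0}} (hp₀ : p₀ ∈ P) :
    ∃ G : Set ZFSet.{0}, Generic S P L G ∧ p₀ ∈ G := by
  classical
  -- an enumeration of the dense sets
  have henum : ∃ e : ℕ → ZFSet.{0}, ∀ D ∈ S, ∃ n, e n = D := by
    rcases S.eq_empty_or_nonempty with h | h
    · exact ⟨fun _ => ∅, fun D hD => by simp [h] at hD⟩
    · obtain ⟨e, he⟩ := hc.exists_eq_range h
      refine ⟨e, fun D hD => ?_⟩
      rw [he] at hD
      exact hD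
  obtain ⟨e, he⟩ := henum
  -- one step
  have hstep : ∀ (D : ZFSet.{0}) (p : {p // p ∈ P}), ∃ q : {p // p ∈ P},
      ZFSet.pair q.1 p.1 ∈ L ∧ ((∀ p ∈ P, ∃ q ∈ P, ZFSet.pair q p ∈ L ∧ q ∈ D) → q.1 ∈ D) := by
    intro D p
    by_cases h : ∀ p ∈ P, ∃ q ∈ P, ZFSet.pair q p ∈ L ∧ q ∈ D
    · obtain ⟨q, hq, h1, h2⟩ := h p.1 p.2
      exact ⟨⟨q, hq⟩, h1, fun _ => h2⟩
    · exact ⟨p, hrefl p.1 p.2, fun h' => absurd h' h⟩
  choose f hf1 hf2 using hstep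
  let s : ℕ → {p // p ∈ P} := fun n => Nat.rec ⟨p₀, hp₀⟩ (fun n p => f (e n) p) n
  have hs : ∀ n, s (n + 1) = f (e n) (s n) := fun n => rfl
  have hle : ∀ m n, m ≤ n → ZFSet.pair (s n).1 (s m).1 ∈ L := by
    intro m n h
    induction n, h using Nat.le_induction with
    | base => exact hrefl _ (s m).2
    | succ n _ ih =>
      rw [hs]
      exact htrans _ (f (e n) (s n)).2 _ (s n).2 _ (s m).2 (hf1 _ _) ih
  refine ⟨{q | q ∈ P ∧ ∃ n, ZFSet.pair (s n).1 q ∈ L}, ⟨?_, ?_, ?_, ?_, ?_⟩,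
    hp₀, 0, hrefl p₀ hp₀⟩
  · exact fun p hp => hp.1
  · exact ⟨p₀, hp₀, 0, hrefl p₀ hp₀⟩
  · rintro p ⟨hp, n, hn⟩ q hq hpq
    exact ⟨hq, n, htrans _ (s n).2 _ hp _ hq hn hpq⟩
  · rintro p ⟨hp, m, hm⟩ q ⟨hq, n, hn⟩
    refine ⟨(s (max m n)).1, ⟨(s (max m n)).2, max m n, hrefl _ (s _).2⟩, ?_, ?_⟩
    · exact htrans _ (s _).2 _ (s m).2 _ hp (hle _ _ (le_max_left m n)) hm
    · exact htrans _ (s _).2 _ (s n).2 _ hq (hle _ _ (le_max_right m n)) hn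
  · intro D hD hdense
    obtain ⟨n, rfl⟩ := he D hD
    refine ⟨(s (n + 1)).1, ⟨(s (n + 1)).2, n + 1, hrefl _ (s (n + 1)).2⟩, ?_⟩
    rw [hs]
    exact hf2 _ _ hdense

end Pool.Agent.H.MP_a163f2_lc
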