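import Pool.Agent.H.MP_a163f2_lc.Z.Rec

/-!
# Block Z, part 2: the rank hierarchy and the collection principle in a standard model of ZF
-/

set_option autoImplicit false
set_option linter.unusedSectionVars false

namespace Pool.Agent.H.MP_a163f2_lc

open Pool.Agent.H.MP_07d118_lc

universe u

variable {M : Type u} [SetStr M] [ZF M] {n : ℕ}

/-- `vr x` is the set of all `z` with `rank z < rank x` -/
noncomputable def vr (x : M) : M := rc (fun f x => sUn (image x (fun y => pow (ap f y)))) x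

theorem vr_step_df : DfF (fun w : Fin 2 → M => sUn (image (w 1) (fun y => pow (ap (w 0) y)))) := by
  refine DfF.SUn (DfF.Image (DfF.var 1) (F := fun y w => pow (ap (w 0) y)) ?_)
  exact DfF.Pow (DfF.Ap (DfF.var 1) (DfF.var 0))

theorem DfF.Vr {F : (Fin n → M) → M} (hF : DfF F) : DfF (fun v => vr (F v)) :=
  DfF.Rc' vr_step_df hF

section std

variable [Std M]

theorem vr_eq (x : M) : vr x = sUn (image x (fun y => pow (vr y))) := by
  refine rc_eq' (x := x) vr_step_df (K := fun x F => sUn (image x (fun y => pow (F y))))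
    (fun f y => rfl) fun y F G h => ?_
  rw [image_congr (fun z hz => by rw [h z hz])]

theorem mem_vr {x z : M} : z ∈ vr x ↔ ∃ y : M, y ∈ x ∧ Sub z (vr y) := by
  rw [vr_eq, mem_sUn]
  have hd : DfF (fun w : Fin 1 → M => pow (vr (w 0))) := DfF.Pow (DfF.Vr (DfF.var 0))
  constructor
  · rintro ⟨b, hb, hz⟩
    obtain ⟨y, hy, rfl⟩ := (mem_image hd).1 hb
    exact ⟨y, hy, mem_pow.1 hz⟩
  · rintro ⟨y, hy, hz⟩
    exact ⟨_, (mem_image hd).2 ⟨y, hy, rfl⟩, mem_pow.2 hz⟩

instance instWF : IsWellFounded M (fun x y : M => x ∈ y) := ⟨Std.wf⟩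

/-- the external rank -/
noncomputable def rk (x : M) : Ordinal.{u} := IsWellFounded.rank (fun x y : M => x ∈ y) x

theorem rk_lt {x y : M} (h : x ∈ y) : rk x < rk y :=
  IsWellFounded.rank_lt_of_rel (r := fun x y : M => x ∈ y) h

theorem rk_le_iff {x : M} {α : Ordinal.{u}} : rk x ≤ α ↔ ∀ y : M, y ∈ x → rk y < α := by
  constructor
  · intro h y hy
    exact (rk_lt hy).trans_le h
  · intro h
    unfold rk
    rw [IsWellFounded.rank_eq]
    refine Ordinal.iSup_le fun b => ?_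
    exact Order.succ_le_of_lt (h b.1 b.2)

theorem mem_vr_iff {x z : M} : z ∈ vr x ↔ rk z < rk x := by
  induction x using mem_ind generalizing z with
  | h x ih =>
    rw [mem_vr]
    constructor
    · rintro ⟨y, hy, h⟩
      refine lt_of_le_of_lt ?_ (rk_lt hy)
      exact rk_le_iff.2 fun u hu => (ih y hy).1 (h u hu)
    · intro h
      by_contra hcon
      refine not_le.2 h (rk_le_iff.2 fun y hy => ?_)
      by_contra hlt
      refine hcon ⟨y, hy, fun u hu => (ih y hy).2 ?_⟩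
      exact (rk_lt hu).trans_le (not_lt.1 hlt)

theorem sub_vr (x : M) : Sub x (vr x) := fun _ hy => mem_vr_iff.2 (rk_lt hy)

theorem vr_trs (x : M) : Trs (vr x) := fun _ hz _ hu =>
  mem_vr_iff.2 ((rk_lt hu).trans (mem_vr_iff.1 hz))

theorem vr_sub_iff {x y : M} : Sub (vr x) (vr y) ↔ rk x ≤ rk y := by
  constructor
  · intro h
    by_contra hlt
    have h1 := h y (mem_vr_iff.2 (not_le.1 hlt))
    exact lt_irrefl _ (mem_vr_iff.1 h1)
  · intro h z hz
    exact mem_vr_iff.2 ((mem_vr_iff.1 hz).trans_le h)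

end std

/-! ### collection -/

/-- the set `vr y` for the `y` of minimal rank with `R y` -/
noncomputable def mrk (R : M → Prop) : M :=
  iota (fun W => ∃ y : M, R y ∧ W = vr y ∧ ∀ y' : M, R y' → Sub (vr y) (vr y'))

theorem DfF.Mrk {R : M → (Fin n → M) → Prop}
    (hR : Df (fun w : Fin (n + 1) → M => R (w 0) (fun i => w i.succ))) :
    DfF (fun v => mrk (fun y => R y v)) := by
  refine DfF.Iota (P := fun W v => ∃ y : M, R y v ∧ W = vr y ∧
    ∀ y' : M, R y' v → Sub (vr y) (vr y')) ?_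
  refine Df.ex (P := fun y w => R y (fun i => w (Fin.succ i)) ∧ w 0 = vr y ∧
    ∀ y' : M, R y' (fun i => w (Fin.succ i)) → Sub (vr y) (vr y')) (Df.and ?_ (Df.and ?_ ?_))
  · exact hR.reindex (fun i => Fin.cases 0 (fun j => j.succ.succ) i)
  · exact Df.eq (DfF.var 1) (DfF.Vr (DfF.var 0))
  · refine Df.all (P := fun y' w => R y' (fun i => w (Fin.succ (Fin.succ i))) →
      Sub (vr (w 0)) (vr y')) (Df.imp ?_ ?_)
    · exact hR.reindex (fun i => Fin.cases 0 (fun j => j.succ.succ.succ) i)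
    · exact Df.subset (DfF.Vr (DfF.var 1)) (DfF.Vr (DfF.var 0))

/-- a set which contains for every `x ∈ A` some `y` with `R x y` (if there is any) -/
noncomputable def coll (A : M) (R : M → M → Prop) : M := sUn (image A (fun x => pow (mrk (R x))))

theorem DfF.Coll {A : (Fin n → M) → M} (hA : DfF A) {R : M → M → (Fin n → M) → Prop}
    (hR : Df (fun w : Fin (n + 2) → M => R (w 0) (w 1) (fun i => w i.succ.succ))) :
    DfF (fun v => coll (A v) (fun x y => R x y v)) := by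
  refine DfF.SUn (DfF.Image hA (F := fun x v => pow (mrk (fun y => R x y v))) (DfF.Pow ?_))
  refine DfF.Mrk (n := n + 1) (R := fun y w => R (w 0) y (fun i => w i.succ)) ?_
  exact hR.reindex (fun i : Fin (n + 2) => Fin.cases 1 (fun i => Fin.cases 0
    (fun j => j.succ.succ) i) i)

section std

variable [Std M]

theorem mrk_spec {R : M → Prop} (h : ∃ y : M, R y) :
    ∃ y : M, R y ∧ mrk R = vr y ∧ ∀ y' : M, R y' → rk y ≤ rk y' := by
  obtain ⟨y, hy, hmin⟩ : ∃ y : M, R y ∧ ∀ y' : M, R y' → rk y ≤ rk y' := by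
    obtain ⟨y₀, h₀⟩ := h
    obtain ⟨α, ⟨y, hy, rfl⟩, hm⟩ := WellFounded.has_min (Ordinal.lt_wf.{u})
      {α | ∃ y : M, R y ∧ rk y = α} ⟨_, y₀, h₀, rfl⟩
    exact ⟨y, hy, fun y' h' => not_lt.1 (hm _ ⟨y', h', rfl⟩)⟩
  refine ⟨y, hy, ?_, hmin⟩
  refine iota_eq ⟨vr y, ⟨y, hy, rfl, fun y' h' => vr_sub_iff.2 (hmin y' h')⟩, ?_⟩
    ⟨y, hy, rfl, fun y' h' => vr_sub_iff.2 (hmin y' h')⟩
  rintro W ⟨z, hz, rfl, hzm⟩
  exact (hzm y hy).antisymm (vr_sub_iff.2 (hmin z hz))

/-- the collection principle -/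
theorem coll_spec {R : M → M → Prop} (hR : Df (fun w : Fin 2 → M => R (w 0) (w 1))) {A x y : M}
    (hx : x ∈ A) (hy : R x y) : ∃ y' : M, y' ∈ coll A R ∧ R x y' := by
  obtain ⟨y', h1, h2, -⟩ := mrk_spec (R := R x) ⟨y, hy⟩
  refine ⟨y', ?_, h1⟩
  have hd : DfF (fun w : Fin 1 → M => pow (mrk (R (w 0)))) := by
    refine DfF.Pow ?_
    refine DfF.Mrk (n := 1) (R := fun y w => R (w 0) y) ?_
    exact hR.reindex ![1, 0]
  refine mem_sUn.2 ⟨_, (mem_image hd).2 ⟨x, hx, rfl⟩, ?_⟩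
  rw [h2]
  exact mem_pow.2 (sub_vr y')

theorem exists_coll {R : M → M → Prop} (hR : Df (fun w : Fin 2 → M => R (w 0) (w 1))) (A : M) :
    ∃ B : M, ∀ x y : M, x ∈ A → R x y → ∃ y' : M, y' ∈ B ∧ R x y' :=
  ⟨coll A R, fun _ _ hx hy => coll_spec hR hx hy⟩

end std

end Pool.Agent.H.MP_a163f2_lc
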