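import Pool.Agent.H.MP_a163f2_lc.Z.Rk
import Pool.Agent.H.MP_a163f2_lc.Stmt

/-!
# Block Z, part 7: ordinals, and Zermelo's theorem in a standard model of ZFC
-/

set_option autoImplicit false
set_option linter.unusedSectionVars false

namespace Pool.Agent.H.MP_a163f2_lc

open Pool.Agent.H.MP_07d118_lc

universe u

variable {M : Type u} [SetStr M] {n : ℕ}

section zf

variable [ZF M]

/-- `x` is an ordinal: a transitive set of transitive sets -/
def Od (x : M) : Prop := Trs x ∧ ∀ y : M, y ∈ x → Trs y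

theorem Df.od {F : (Fin n → M) → M} (hF : DfF F) : Df (fun v => Od (F v)) := by
  refine Df.comp1 (P := fun x => Od x) ?_ hF
  unfold Od
  apply_rules (transparency := .reducible) [Df.and, Df.all, Df.imp, Df.trs, Df.mem, DfF.var]

theorem Od.mem {x y : M} (hx : Od x) (hy : y ∈ x) : Od y :=
  ⟨hx.2 y hy, fun z hz => hx.2 z (hx.1 y hy z hz)⟩

theorem od_trich [Std M] {x y : M} (hx : Od x) (hy : Od y) : x ∈ y ∨ x = y ∨ y ∈ x := by
  induction x using mem_ind generalizing y with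
  | h x ihx =>
    induction y using mem_ind with
    | h y ihy =>
      by_contra hcon
      rw [not_or, not_or] at hcon
      obtain ⟨h1, h2, h3⟩ := hcon
      refine h2 (ext fun z => ⟨fun hz => ?_, fun hz => ?_⟩)
      · rcases ihx z hz (hx.mem hz) hy with h | rfl | h
        · exact h
        · exact absurd hz h3
        · exact absurd (hx.1 z hz y h) h3
      · rcases ihy z hz (hy.mem hz) with h | rfl | h
        · exact absurd (hy.1 z hz x h) h1
        · exact absurd hz h1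
        · exact h

/-- the ordinals do not form a set -/
theorem not_all_od (X : M) : ∃ x : M, Od x ∧ ¬ x ∈ X := by
  by_contra hcon
  push Not at hcon
  have hd : Df (fun w : Fin 1 → M => Od (w 0)) := Df.od (DfF.var _)
  have h1 : Od (sep X Od) := by
    constructor
    · intro x hx y hy
      rw [mem_sep hd] at hx ⊢
      exact ⟨hcon y (hx.2.mem hy), hx.2.mem hy⟩
    · intro x hx
      exact ((mem_sep hd).1 hx).2.1
  exact not_mem_self _ ((mem_sep hd).2 ⟨hcon _ h1, h1⟩)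

end zf

variable [ZFC M]

/-- a definable choice function for the nonempty subsets of `T` -/
theorem exists_choice (T : M) : ∃ g : M → M, DfF (fun w : Fin 1 → M => g (w 0)) ∧
    ∀ A : M, Sub A T → (∃ x : M, x ∈ A) → g A ∈ A := by
  have hd : DfF (fun w : Fin 1 → M => prod (upair (w 0) (w 0)) (w 0)) := by
    apply_rules [DfF.Prod, DfF.Upair, DfF.var]
  have hne : Df (fun w : Fin 1 → M => ∃ x : M, x ∈ w 0) := Df.ex (Df.mem (DfF.var _) (DfF.var _))
  obtain ⟨c, hc⟩ := ZFC.choice (image (sep (pow T) (fun A => ∃ x : M, x ∈ A))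
    (fun A => prod (upair A A) A)) (by
      intro x hx
      obtain ⟨A, hA, rfl⟩ := (mem_image hd).1 hx
      obtain ⟨y, hy⟩ := ((mem_sep hne).1 hA).2
      exact ⟨opair A y, opair_mem_prod.2 ⟨mem_upair.2 (Or.inl rfl), hy⟩⟩) (by
      intro x y z hx hy hzx hzy
      obtain ⟨A, hA, rfl⟩ := (mem_image hd).1 hx
      obtain ⟨B, hB, rfl⟩ := (mem_image hd).1 hy
      obtain ⟨u, hu, v, hv, rfl⟩ := mem_prod.1 hzx
      obtain ⟨hu', -⟩ := opair_mem_prod.1 hzy
      have h1 : u = A := by rcases mem_upair.1 hu with h | h <;> exact h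
      have h2 : u = B := by rcases mem_upair.1 hu' with h | h <;> exact h
      rw [← h1, ← h2])
  refine ⟨fun A => iota (fun t => opair A t ∈ c ∧ t ∈ A), ?_, fun A hA hne' => ?_⟩
  · refine DfF.Iota (P := fun t w => opair (w 0) t ∈ c ∧ t ∈ w 0) ?_
    exact Df.and (Df.mem (DfF.Opair (DfF.var 1) (DfF.var 0)) (DfF.const _))
      (Df.mem (DfF.var 0) (DfF.var 1))
  · have hAm : A ∈ sep (pow T) (fun A => ∃ x : M, x ∈ A) := (mem_sep hne).2 ⟨mem_pow.2 hA, hne'⟩
    obtain ⟨z, ⟨hz1, hz2⟩, hu⟩ := hc _ ((mem_image hd).2 ⟨A, hAm, rfl⟩)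
    obtain ⟨B, hB, t, ht, rfl⟩ := mem_prod.1 hz1
    have h1 : B = A := by rcases mem_upair.1 hB with h | h <;> exact h
    subst h1
    refine (iota_spec (P := fun t => opair B t ∈ c ∧ t ∈ B) ⟨t, ⟨hz2, ht⟩, ?_⟩).2
    rintro t' ⟨h2, h3⟩
    have h4 := hu (opair B t') ⟨opair_mem_prod.2 ⟨mem_upair.2 (Or.inl rfl), h3⟩, h2⟩
    exact (opair_inj.1 h4).2

/-- Zermelo's theorem: every set can be injected into the ordinals -/
theorem exists_inj_od [Std M] (T : M) : ∃ f : M, IsFun f T ∧ (∀ t : M, t ∈ T → Od (ap f t)) ∧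
    ∀ t t' : M, t ∈ T → t' ∈ T → ap f t = ap f t' → t = t' := by
  obtain ⟨g, hgd, hg⟩ := exists_choice T
  have hH : DfF (fun w : Fin 2 → M => g (sep T (fun t => ∀ β : M, β ∈ w 1 → ¬ ap (w 0) β = t))) := by
    refine DfF.comp1 hgd (DfF.Sep (DfF.const T)
      (P := fun t w => ∀ β : M, β ∈ w 1 → ¬ ap (w 0) β = t) ?_)
    refine Df.all (Df.imp (Df.mem (DfF.var 0) (DfF.var 3)) (Df.not (Df.eq ?_ (DfF.var 1))))
    exact DfF.Ap (DfF.var 2) (DfF.var 0)
  obtain ⟨F, hFe⟩ : ∃ F : M → M, F = rc (fun f α => g (sep T (fun t => ∀ β : M, β ∈ α →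
    ¬ ap f β = t))) := ⟨_, rfl⟩
  have hFd : ∀ {k : ℕ} {X : (Fin k → M) → M}, DfF X → DfF (fun v => F (X v)) := by
    intro k X hX
    rw [hFe]
    exact DfF.Rc' hH hX
  have hF : ∀ α : M, F α = g (sep T (fun t => ∀ β : M, β ∈ α → ¬ F β = t)) := by
    intro α
    have h1 := rc_eq' (x := α) hH (K := fun α F => g (sep T (fun t => ∀ β : M, β ∈ α → ¬ F β = t)))
      (fun f y => rfl) (by
        intro y F G h
        have e : (fun t => ∀ β : M, β ∈ y → ¬ F β = t) = fun t => ∀ β : M, β ∈ y → ¬ G β = t := by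
          funext t
          exact propext (forall_congr' fun β => imp_congr_right fun hβ => by rw [h β hβ])
        show g (sep T (fun t => ∀ β : M, β ∈ y → ¬ F β = t)) = g (sep T (fun t => ∀ β : M, β ∈ y →
          ¬ G β = t))
        rw [e])
    rw [← hFe] at h1
    exact h1
  have hrd : ∀ α : M, Df (fun w : Fin 1 → M => ∀ β : M, β ∈ α → ¬ F β = w 0) := fun α =>
    Df.all (Df.imp (Df.mem (DfF.var 0) (DfF.const α)) (Df.not (Df.eq (hFd (DfF.var 0)) (DfF.var 1))))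
  -- exhaustion
  obtain ⟨α₀, hα₀, hex⟩ : ∃ α : M, Od α ∧ ∀ t : M, t ∈ T → ∃ β : M, β ∈ α ∧ F β = t := by
    by_contra hcon
    push Not at hcon
    have hstep : ∀ α : M, Od α → F α ∈ T ∧ ∀ β : M, β ∈ α → ¬ F β = F α := by
      intro α hα
      obtain ⟨t, ht, h1⟩ := hcon α hα
      have h2 := hg (sep T (fun t => ∀ β : M, β ∈ α → ¬ F β = t))
        (fun z hz => ((mem_sep (hrd α)).1 hz).1) ⟨t, (mem_sep (hrd α)).2 ⟨ht, h1⟩⟩
      rw [← hF, mem_sep (hrd α)] at h2
      exact h2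
    have hinj : ∀ α β : M, Od α → Od β → F α = F β → α = β := by
      intro α β hα hβ h
      rcases od_trich hα hβ with h1 | h1 | h1
      · exact absurd h ((hstep β hβ).2 α h1)
      · exact h1
      · exact absurd h.symm ((hstep α hα).2 β h1)
    have hid : DfF (fun w : Fin 1 → M => iota (fun α => Od α ∧ F α = w 0)) :=
      DfF.Iota (P := fun α w => Od α ∧ F α = w 0) (Df.and (Df.od (DfF.var 0))
        (Df.eq (hFd (DfF.var 0)) (DfF.var 1)))
    obtain ⟨α, hα, hn⟩ := not_all_od (image T (fun t => iota (fun α => Od α ∧ F α = t)))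
    refine hn ((mem_image hid).2 ⟨F α, (hstep α hα).1, ?_⟩)
    exact (iota_eq (P := fun β => Od β ∧ F β = F α) ⟨α, ⟨hα, rfl⟩, fun β hβ =>
      hinj β α hβ.1 hα hβ.2⟩ ⟨hα, rfl⟩).symm
  -- the least index
  have key : ∀ t : M, t ∈ T → ∃! α : M, Od α ∧ F α = t ∧ ∀ β : M, β ∈ α → ¬ F β = t := by
    intro t ht
    obtain ⟨β, hβ, h1⟩ := hex t ht
    obtain ⟨α, ⟨h2, h3⟩, h4⟩ := WellFounded.has_min (Std.wf (M := M)) {α | Od α ∧ F α = t}
      ⟨β, hα₀.mem hβ, h1⟩
    refine ⟨α, ⟨h2, h3, fun γ hγ h5 => h4 γ ⟨h2.mem hγ, h5⟩ hγ⟩, ?_⟩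
    rintro γ ⟨h5, h6, h7⟩
    rcases od_trich h5 h2 with h | h | h
    · exact absurd h (h4 γ ⟨h5, h6⟩)
    · exact h
    · exact absurd h3 (h7 α h)
  have hid : DfF (fun w : Fin 1 → M => iota (fun α => Od α ∧ F α = w 0 ∧
      ∀ β : M, β ∈ α → ¬ F β = w 0)) := by
    refine DfF.Iota (P := fun α w => Od α ∧ F α = w 0 ∧ ∀ β : M, β ∈ α → ¬ F β = w 0) ?_
    refine Df.and (Df.od (DfF.var 0)) (Df.and (Df.eq (hFd (DfF.var 0)) (DfF.var 1)) ?_)
    exact Df.all (Df.imp (Df.mem (DfF.var 0) (DfF.var 1)) (Df.not (Df.eq (hFd (DfF.var 0))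
      (DfF.var 2))))
  have hsp : ∀ t : M, t ∈ T → Od (ap (lam T (fun t => iota (fun α => Od α ∧ F α = t ∧
      ∀ β : M, β ∈ α → ¬ F β = t))) t) ∧ F (ap (lam T (fun t => iota (fun α => Od α ∧ F α = t ∧
      ∀ β : M, β ∈ α → ¬ F β = t))) t) = t := by
    intro t ht
    rw [ap_lam hid ht]
    have h1 := iota_spec (key t ht)
    exact ⟨h1.1, h1.2.1⟩
  refine ⟨_, isFun_lam hid, fun t ht => (hsp t ht).1, fun t t' ht ht' h => ?_⟩
  rw [← (hsp t ht).2, ← (hsp t' ht').2, h]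

end Pool.Agent.H.MP_a163f2_lc
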