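import Pool.Agent.H.MP_a163f2_lc.Z.Ax
import Pool.Agent.H.MP_a163f2_lc.Z.Wo
import Pool.Agent.H.MP_a163f2_lc.Iface

/-!
# Block Z, part 8: the forcing theorem
-/

set_option autoImplicit false
set_option linter.unusedSectionVars false

namespace Pool.Agent.H.MP_a163f2_lc

namespace Z

open Pool.Agent.H.MP_07d118_lc

universe u

section choice

variable {M : Type u} [SetStr M] [ZFC M] [Std M] {P L : M} {G : Set M} (hG : Gen P L G)
  {val : M → ZFSet.{0}} (hval : IsVal G val)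

include hG hval

/-- the generic extension is a model of ZFC -/
theorem zfc_ex : ZFC (Ex val) := by
  have hGn : Gn G := ⟨P, L, hG⟩
  refine { toZF := zf_ex hG hval, choice := ?_ }
  intro a hne hdis
  obtain ⟨τ, rfl⟩ := exists_name a
  obtain ⟨f, hf, hfo, hfi⟩ := exists_inj_od (tcs τ)
  obtain ⟨c, hc⟩ := ex_set hG hval (Q := fun π => ∃ χ : M, val χ ∈ val τ ∧ val π ∈ val χ ∧
    ∀ π' : M, π' ∈ tcs τ → ap f π' ∈ ap f π → ¬ val π' ∈ val χ) (by
      refine Good.ex (Good.and (Good.vmem hval (DfF.var _) (DfF.const _)) (Good.and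
        (Good.vmem hval (DfF.var _) (DfF.var _)) (Good.all (Good.imp ?_ (Good.imp ?_
          (Good.not (Good.vmem hval (DfF.var _) (DfF.var _))))))))
      · exact Good.of_df (Df.mem (DfF.var 0) (DfF.const _))
      · exact Good.of_df (Df.mem (DfF.Ap (DfF.const _) (DfF.var 0))
          (DfF.Ap (DfF.const _) (DfF.var 2)))) (tcs τ)
  refine ⟨c, fun x hx => ?_⟩
  obtain ⟨χ₀, rfl⟩ := exists_name x
  obtain ⟨y₀, hy₀⟩ := hne _ hx
  obtain ⟨π₀, hπ₀, he₀⟩ := exists_mem_tcs2 hG hval hx hy₀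
  obtain ⟨π, ⟨h1, h2⟩, h3⟩ := WellFounded.has_min (InvImage.wf (fun π : M => ap f π) Std.wf)
    {π | π ∈ tcs τ ∧ val π ∈ val χ₀} ⟨π₀, hπ₀, by rw [← he₀]; exact hy₀⟩
  refine ⟨vv val π, ⟨h2, (hc _).2 ⟨π, h1, ⟨χ₀, hx, h2, fun π' h4 h5 h6 => h3 π' ⟨h4, h6⟩ h5⟩,
    rfl⟩⟩, ?_⟩
  rintro y' ⟨h4, h5⟩
  obtain ⟨π', h6, ⟨χ, h7, h8, h9⟩, rfl⟩ := (hc _).1 h5
  have h10 : vv val χ₀ = vv val χ := hdis _ _ (vv val π') hx h7 h4 h8
  have h11 : val χ₀ = val χ := congrArg Subtype.val h10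
  rcases od_trich (hfo π h1) (hfo π' h6) with h | h | h
  · exact absurd (h11 ▸ h2) (h9 π h1 h)
  · rw [hfi π π' h1 h6 h]
  · exact absurd h (h3 π' ⟨h6, h4⟩)

end choice

/-! ### transitive models -/

section abs

variable {S : Set ZFSet.{0}} (hT : Trans S) [ZF S]

include hT

theorem abs_mem {x : S} {z : ZFSet.{0}} (hz : z ∈ x.1) : ∃ y : S, y ∈ x ∧ y.1 = z :=
  ⟨⟨z, hT _ x.2 z hz⟩, hz, rfl⟩

theorem abs_upair (x y : S) : (upair x y).1 = {x.1, y.1} := by
  refine ZFSet.ext fun z => ?_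
  rw [ZFSet.mem_pair]
  constructor
  · intro hz
    obtain ⟨w, hw, rfl⟩ := abs_mem hT hz
    rcases mem_upair.1 hw with rfl | rfl
    · exact Or.inl rfl
    · exact Or.inr rfl
  · rintro (rfl | rfl)
    · exact (mem_upair (x := x) (y := y)).2 (Or.inl rfl)
    · exact (mem_upair (x := x) (y := y)).2 (Or.inr rfl)

theorem abs_opair (x y : S) : (opair x y).1 = ZFSet.pair x.1 y.1 := by
  unfold opair
  rw [abs_upair hT, abs_upair hT, abs_upair hT]
  have h : ({x.1, x.1} : ZFSet.{0}) = {x.1} := by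
    refine ZFSet.ext fun z => ?_
    rw [ZFSet.mem_pair, ZFSet.mem_singleton, or_self]
  rw [h]
  rfl

theorem abs_nm (n : ℕ) : (nm n : S).1 = num n := by
  induction n with
  | zero =>
    refine ZFSet.ext fun z => ?_
    constructor
    · intro hz
      obtain ⟨w, hw, rfl⟩ := abs_mem hT hz
      exact absurd hw (not_mem_emp w)
    · intro hz
      exact absurd hz (ZFSet.notMem_empty z)
  | succ n ih =>
    refine ZFSet.ext fun z => ?_
    show z ∈ (suc (nm n : S)).1 ↔ z ∈ insert (num n) (num n)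
    rw [ZFSet.mem_insert_iff, ← ih]
    constructor
    · intro hz
      obtain ⟨w, hw, rfl⟩ := abs_mem hT hz
      rcases mem_suc.1 hw with h | rfl
      · exact Or.inr h
      · exact Or.inl rfl
    · rintro (rfl | h)
      · exact (mem_suc (x := (nm n : S))).2 (Or.inr rfl)
      · obtain ⟨w, hw, rfl⟩ := abs_mem hT h
        exact (mem_suc (x := (nm n : S))).2 (Or.inl hw)

theorem num_inj' {m n : ℕ} (h : num m = num n) : m = n := by
  refine nm_inj (M := S) (Subtype.ext ?_)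
  rw [abs_nm hT, abs_nm hT, h]

end abs

section val

variable {S : Set ZFSet.{0}} [ZF S] (G : Set S)

/-- the elements of a name which are pairs with the second component in `G` -/
def DV (τ : S) : Type 1 := {z : {z : ZFSet.{0} // z ∈ τ.1} // ∃ π p : S, G p ∧ z.1 = (opair π p).1}

instance (τ : S) : Small.{0} (DV G τ) := by
  have h1 : Small.{0} {z : ZFSet.{0} // z ∈ τ.1} := ZFSet.small_coe τ.1
  exact small_subtype {z : ZFSet.{0} // z ∈ τ.1} _

noncomputable def DV.nam {G : Set S} {τ : S} (d : DV G τ) : S := d.2.choose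

theorem DV.spec {G : Set S} {τ : S} (d : DV G τ) :
    ∃ p : S, G p ∧ d.1.1 = (opair d.nam p).1 := d.2.choose_spec

theorem DV.rk {G : Set S} {τ : S} (d : DV G τ) : MP_a163f2_lc.rk d.nam < MP_a163f2_lc.rk τ := by
  obtain ⟨p, -, h⟩ := d.spec
  have h1 : opair d.nam p ∈ τ := by
    show (opair d.nam p).1 ∈ τ.1
    rw [← h]
    exact d.1.2
  exact rk_of_opair_mem h1

/-- the value of a name -/
noncomputable def zval (τ : S) : ZFSet.{0} := ZFSet.range (fun d : DV G τ => zval d.nam)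
termination_by rk τ
decreasing_by exact d.rk

theorem isVal_zval : IsVal G (zval G) := by
  intro τ z
  rw [zval, ZFSet.mem_range (f := fun d : DV G τ => zval G d.nam)]
  constructor
  · rintro ⟨d, rfl⟩
    obtain ⟨p, hp, h⟩ := d.spec
    refine ⟨d.nam, p, hp, ?_, rfl⟩
    show (opair d.nam p).1 ∈ τ.1
    rw [← h]
    exact d.1.2
  · rintro ⟨π, p, hp, h, rfl⟩
    refine ⟨⟨⟨(opair π p).1, h⟩, π, p, hp, rfl⟩, ?_⟩
    obtain ⟨q, -, h1⟩ := DV.spec (G := G) (τ := τ) ⟨⟨(opair π p).1, h⟩, π, p, hp, rfl⟩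
    rw [← (opair_inj.1 (Subtype.ext h1)).1]

end val

/-- the canonical names name the elements of the ground model -/
theorem val_chk {S : Set ZFSet.{0}} (hT : Trans S) [ZF S] {P L : S} {G : Set S}
    (hG : Gen P L G) {val : S → ZFSet.{0}} (hval : IsVal G val) (x : S) :
    val (chk P x) = x.1 := by
  induction x using mem_ind with
  | h x ih =>
    refine ZFSet.ext fun z => ?_
    rw [mem_val_chk hG hval]
    constructor
    · rintro ⟨y, hy, rfl⟩
      rw [ih y hy]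
      exact hy
    · intro hz
      obtain ⟨y, hy, rfl⟩ := abs_mem hT hz
      exact ⟨y, hy, (ih y hy).symm⟩

theorem mem_graph {x : ℕ → ℕ} {z : ZFSet.{0}} :
    z ∈ graph x ↔ ∃ n, ZFSet.pair (num n) (num (x n)) = z := ZFSet.mem_range

/-- the reals of the extension have names which are sets of triples `((n, k), p)` -/
theorem reals_ex {S : Set ZFSet.{0}} (hT : Trans S) [ZF S] {P L : S} {G : Set S}
    (hG : Gen P L G) {val : S → ZFSet.{0}} (hval : IsVal G val) (x : ℕ → ℕ) :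
    x ∈ Reals (Ex val) ↔ ∃ R : S, ∀ n k, (x n = k ↔ ∃ p, G p ∧
      opair (opair (nm n) (nm k)) p ∈ R) := by
  have hGn : Gn G := ⟨P, L, hG⟩
  have hp : ∀ n k, (opair (nm n) (nm k) : S).1 = ZFSet.pair (num n) (num k) := fun n k => by
    rw [abs_opair hT, abs_nm hT, abs_nm hT]
  have hgr : ∀ n k, ZFSet.pair (num n) (num k) ∈ graph x ↔ x n = k := by
    intro n k
    rw [mem_graph]
    constructor
    · rintro ⟨m, hm⟩
      obtain ⟨h1, h2⟩ := ZFSet.pair_inj.1 hm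
      obtain rfl := num_inj' hT h1
      exact num_inj' hT h2
    · rintro rfl
      exact ⟨n, rfl⟩
  constructor
  · rintro ⟨σ, hσ⟩
    obtain ⟨F, hF, hFQ⟩ := Good.vmem (G := G) hval (n := 1) (F := fun w => chk P (w 0))
      (K := fun _ => σ) (DfF.Chk P (DfF.var 0)) (DfF.const σ)
    have hd : Df (fun w : Fin 1 → S => ∃ z p : S, w 0 = opair z p ∧ F p (fun _ => z)) := by
      refine Df.ex (P := fun z (w : Fin 1 → S) => ∃ p : S, w 0 = opair z p ∧ F p (fun _ => z)) ?_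
      refine Df.ex (P := fun p (w : Fin 2 → S) => w 1 = opair (w 0) p ∧ F p (fun _ => w 0)) ?_
      refine Df.and (Df.eq (DfF.var 2) (DfF.Opair (DfF.var 1) (DfF.var 0))) ?_
      exact hF.reindex (fun i : Fin 2 => Fin.cases (0 : Fin 3) (fun _ => 1) i)
    refine ⟨sep (prod (prod om om) P) (fun w => ∃ z p : S, w = opair z p ∧ F p (fun _ => z)),
      fun n k => ?_⟩
    rw [← hgr n k, ← hp, ← hσ, ← val_chk hT hG hval (opair (nm n) (nm k))]
    refine (hFQ (fun _ => opair (nm n) (nm k))).trans (exists_congr fun p =>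
      and_congr_right fun hGp => ?_)
    rw [mem_sep hd]
    constructor
    · intro h
      exact ⟨opair_mem_prod.2 ⟨opair_mem_prod.2 ⟨nm_mem n, nm_mem k⟩, hG.sub p hGp⟩, _, _, rfl, h⟩
    · rintro ⟨-, z, q, h1, h2⟩
      obtain ⟨rfl, rfl⟩ := opair_inj.1 h1
      exact h2
  · rintro ⟨R, hR⟩
    have hcd : DfF (fun w : Fin 1 → S => chk P (w 0)) := DfF.Chk P (DfF.var 0)
    obtain ⟨τ, -, hτ⟩ := ex_sep hG hval (Q := fun π => ∃ z p : S, π = chk P z ∧
      G p ∧ opair z p ∈ R) (by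
        refine Good.ex (Good.ex (Good.and ?_ (Good.and ?_ ?_)))
        · exact Good.of_df (Df.eq (DfF.var 2) (DfF.Chk P (DfF.var 1)))
        · exact Good.memG (DfF.var 0)
        · exact Good.of_df (Df.mem (DfF.Opair (DfF.var 1) (DfF.var 0)) (DfF.const _)))
      (image (prod om om) (chk P))
    refine ⟨τ, ZFSet.ext fun z => ?_⟩
    rw [hτ]
    constructor
    · rintro ⟨π, h1, ⟨w, p, rfl, h2, h3⟩, rfl⟩
      obtain ⟨w', h4, h5⟩ := (mem_image hcd).1 h1
      have h6 : w = w' := by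
        refine Subtype.ext ?_
        rw [← val_chk hT hG hval w, ← val_chk hT hG hval w', h5]
      subst h6
      obtain ⟨a, ha, b, hb, rfl⟩ := mem_prod.1 h4
      obtain ⟨n, rfl⟩ := exists_nm ha
      obtain ⟨k, rfl⟩ := exists_nm hb
      rw [val_chk hT hG hval, hp, hgr]
      exact (hR n k).2 ⟨p, h2, h3⟩
    · intro hz
      obtain ⟨n, rfl⟩ := mem_graph.1 hz
      obtain ⟨p, h1, h2⟩ := (hR n (x n)).1 rfl
      refine ⟨chk P (opair (nm n) (nm (x n))), (mem_image hcd).2 ⟨_, opair_mem_prod.2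
        ⟨nm_mem n, nm_mem _⟩, rfl⟩, ⟨_, p, rfl, h1, h2⟩, ?_⟩
      rw [val_chk hT hG hval, hp]

end Z

open Z Pool.Agent.H.MP_07d118_lc in
/-- **the forcing theorem** -/
theorem forcing_theorem : ForcingStatement := by
  intro S hT _ hZ P hP L hL hrefl htrans G hG
  obtain ⟨P', hP'⟩ : ∃ P' : S, P'.1 = P := ⟨⟨P, hP⟩, rfl⟩
  obtain ⟨L', hL'⟩ : ∃ L' : S, L'.1 = L := ⟨⟨L, hL⟩, rfl⟩
  have hmP : ∀ p : S, p ∈ P' ↔ p.1 ∈ P := fun p => by rw [← hP']; rfl
  have hple : ∀ p q : S, Ple P' L' p q ↔ p.1 ∈ P ∧ q.1 ∈ P ∧ ZFSet.pair p.1 q.1 ∈ L := by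
    intro p q
    unfold Ple
    rw [hmP, hmP]
    refine and_congr_right fun _ => and_congr_right fun _ => ?_
    rw [← abs_opair hT, ← hL']
    rfl
  have hGen : Gen P' L' {p : S | p.1 ∈ G} := by
    refine ⟨?_, ?_, ?_, ?_, ?_, ?_, ?_⟩
    · intro p hp
      rw [hple]
      exact ⟨(hmP p).1 hp, (hmP p).1 hp, hrefl _ ((hmP p).1 hp)⟩
    · intro p q r h1 h2
      rw [hple] at h1 h2 ⊢
      exact ⟨h1.1, h2.2.1, htrans _ h1.1 _ h1.2.1 _ h2.2.1 h1.2.2 h2.2.2⟩
    · intro p hp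
      exact (hmP p).2 (hG.sub _ hp)
    · obtain ⟨p, hp⟩ := hG.ne
      exact ⟨⟨p, hT _ hP p (hG.sub p hp)⟩, hp⟩
    · intro p q hp hpq
      rw [hple] at hpq
      exact hG.up _ hp _ hpq.2.1 hpq.2.2
    · intro p q hp hq
      obtain ⟨r, hr, h1, h2⟩ := hG.dir _ hp _ hq
      refine ⟨⟨r, hT _ hP r (hG.sub r hr)⟩, hr, ?_, ?_⟩
      · exact (hple _ _).2 ⟨hG.sub r hr, hG.sub _ hp, h1⟩
      · exact (hple _ _).2 ⟨hG.sub r hr, hG.sub _ hq, h2⟩
    · intro D hD
      obtain ⟨p, hp, hpD⟩ := hG.meets D.1 D.2 fun p hp => by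
        obtain ⟨q, hq, hqD⟩ := hD ⟨p, hT _ hP p hp⟩ ((hmP _).2 hp)
        rw [hple] at hq
        exact ⟨q.1, hq.1, hq.2.2, hqD⟩
      exact ⟨⟨p, hT _ hP p (hG.sub p hp)⟩, hp, hpD⟩
  have hval := isVal_zval (S := S) {p : S | p.1 ∈ G}
  refine ⟨Ex (zval {p : S | p.1 ∈ G}), ex_trans hval, zfc_ex hGen hval, fun x hx => ?_,
    fun x => ?_⟩
  · exact ⟨chk P' ⟨x, hx⟩, val_chk hT hGen hval ⟨x, hx⟩⟩
  · rw [reals_ex hT hGen hval]
    constructor
    · rintro ⟨R, hR⟩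
      refine ⟨R.1, R.2, fun n k => (hR n k).trans ?_⟩
      constructor
      · rintro ⟨p, hp, h⟩
        refine ⟨p.1, hp, ?_⟩
        rw [← abs_nm hT, ← abs_nm hT, ← abs_opair hT, ← abs_opair hT]
        exact h
      · rintro ⟨p, hp, h⟩
        refine ⟨⟨p, hT _ hP p (hG.sub p hp)⟩, hp, ?_⟩
        show (opair (opair (nm n) (nm k)) (⟨p, hT _ hP p (hG.sub p hp)⟩ : S)).1 ∈ R.1
        rw [abs_opair hT, abs_opair hT, abs_nm hT, abs_nm hT]
        exact h
    · rintro ⟨R, hRS, hR⟩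
      refine ⟨⟨R, hRS⟩, fun n k => (hR n k).trans ?_⟩
      constructor
      · rintro ⟨p, hp, h⟩
        refine ⟨⟨p, hT _ hP p (hG.sub p hp)⟩, hp, ?_⟩
        show (opair (opair (nm n) (nm k)) (⟨p, hT _ hP p (hG.sub p hp)⟩ : S)).1 ∈ R
        rw [abs_opair hT, abs_opair hT, abs_nm hT, abs_nm hT]
        exact h
      · rintro ⟨p, hp, h⟩
        refine ⟨p.1, hp, ?_⟩
        rw [← abs_nm hT, ← abs_nm hT, ← abs_opair hT, ← abs_opair hT]
        exact h

end Pool.Agent.H.MP_a163f2_lc
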