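import Pool.Agent.H.MP_a163f2_lc.Z.Ext

/-!
# Block Z, part 6: the axioms of ZF in the generic extension
-/

set_option autoImplicit false
set_option linter.unusedSectionVars false

namespace Pool.Agent.H.MP_a163f2_lc.Z

open Pool.Agent.H.MP_07d118_lc

universe u

variable {M : Type u} [SetStr M] [ZF M] [Std M] {P L : M} {G : Set M} (hG : Gen P L G)
  {val : M → ZFSet.{0}} (hval : IsVal G val)

include hG hval

/-- all elements of `val τ` have names in `tcs τ` -/
theorem exists_mem_tcs {τ : M} {z : ZFSet.{0}} (h : z ∈ val τ) :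
    ∃ π : M, π ∈ tcs τ ∧ z = val π := by
  obtain ⟨π, p, -, h1, rfl⟩ := (hval τ z).1 h
  exact ⟨π, (mem_of_opair_mem (tcs_trs τ) (self_mem_tcs τ) h1).1, rfl⟩

theorem exists_mem_tcs2 {τ : M} {y z : ZFSet.{0}} (h : y ∈ val τ) (hz : z ∈ y) :
    ∃ π : M, π ∈ tcs τ ∧ z = val π := by
  obtain ⟨π, p, -, h1, rfl⟩ := (hval τ y).1 h
  obtain ⟨ρ, q, -, h2, rfl⟩ := (hval π z).1 hz
  have h3 := (mem_of_opair_mem (tcs_trs τ) (self_mem_tcs τ) h1).1
  exact ⟨ρ, (mem_of_opair_mem (tcs_trs τ) h3 h2).1, rfl⟩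

/-- a set of the extension given by a good class -/
theorem ex_set {Q : M → Prop} (hQ : Good G (fun w : Fin 1 → M => Q (w 0))) (A : M) :
    ∃ b : Ex val, ∀ x : Ex val, x ∈ b ↔ ∃ π : M, π ∈ A ∧ Q π ∧ x = vv val π := by
  obtain ⟨τ, -, hτ⟩ := ex_sep hG hval hQ A
  refine ⟨vv val τ, fun x => (hτ x.1).trans ?_⟩
  refine exists_congr fun π => and_congr_right fun _ => and_congr_right fun _ => ?_
  exact ⟨fun h => Subtype.ext h, fun h => congrArg Subtype.val h⟩

theorem zf_ex : ZF (Ex val) := by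
  have hGn : Gn G := ⟨P, L, hG⟩
  have hT := ex_trans hval
  refine ⟨?_, ?_, ?_, ?_, ?_, ?_, ?_, ?_⟩
  · -- extensionality
    intro a b h
    refine Subtype.ext (ZFSet.ext fun z => ⟨fun hz => ?_, fun hz => ?_⟩)
    · exact (h ⟨z, hT _ a.2 z hz⟩).1 hz
    · exact (h ⟨z, hT _ b.2 z hz⟩).2 hz
  · -- foundation
    rintro a ⟨x, hx⟩
    obtain ⟨y, hy, hm⟩ := WellFounded.has_min (InvImage.wf (fun x : Ex val => (x : ZFSet.{0}))
      ZFSet.mem_wf) {y | y ∈ a} ⟨x, hx⟩
    exact ⟨y, hy, fun z hz => hm z hz.2 hz.1⟩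
  · -- pairing
    intro a b
    obtain ⟨σ, rfl⟩ := exists_name a
    obtain ⟨τ, rfl⟩ := exists_name b
    obtain ⟨c, hc⟩ := ex_set hG hval (Q := fun _ => True) (Good.of_df (Df.prop True)) (upair σ τ)
    refine ⟨c, fun x => (hc x).trans ?_⟩
    constructor
    · rintro ⟨π, h1, -, rfl⟩
      rcases mem_upair.1 h1 with rfl | rfl
      · exact Or.inl rfl
      · exact Or.inr rfl
    · rintro (rfl | rfl)
      · exact ⟨σ, mem_upair.2 (Or.inl rfl), trivial, rfl⟩
      · exact ⟨τ, mem_upair.2 (Or.inr rfl), trivial, rfl⟩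
  · -- union
    intro a
    obtain ⟨τ, rfl⟩ := exists_name a
    obtain ⟨b, hb⟩ := ex_set hG hval (Q := fun π => ∃ y : M, val y ∈ val τ ∧ val π ∈ val y)
      (Good.ex (Good.and (Good.vmem hval (DfF.var _) (DfF.const _))
        (Good.vmem hval (DfF.var _) (DfF.var _)))) (tcs τ)
    refine ⟨b, fun x => (hb x).trans ?_⟩
    constructor
    · rintro ⟨π, -, ⟨y, h1, h2⟩, rfl⟩
      exact ⟨vv val y, h1, h2⟩
    · rintro ⟨y, h1, h2⟩
      obtain ⟨σ, rfl⟩ := exists_name y
      obtain ⟨π, h3, h4⟩ := exists_mem_tcs2 hG hval h1 h2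
      have hx : x = vv val π := Subtype.ext h4
      subst hx
      exact ⟨π, h3, ⟨σ, h1, h2⟩, rfl⟩
  · -- power set
    intro a
    obtain ⟨τ, rfl⟩ := exists_name a
    obtain ⟨b, hb⟩ := ex_set hG hval (Q := fun σ => ∀ y : M, val y ∈ val σ → val y ∈ val τ)
      (Good.all (Good.imp (Good.vmem hval (DfF.var _) (DfF.var _))
        (Good.vmem hval (DfF.var _) (DfF.const _)))) (pow (prod (tcs τ) P))
    refine ⟨b, fun x => (hb x).trans ?_⟩
    constructor
    · rintro ⟨σ, -, h1, rfl⟩ y hy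
      obtain ⟨y', rfl⟩ := exists_name y
      exact h1 y' hy
    · intro h
      obtain ⟨σ₀, rfl⟩ := exists_name x
      obtain ⟨σ, h1, h2⟩ := ex_sep hG hval (Q := fun π => val π ∈ val σ₀)
        (Good.vmem hval (DfF.var _) (DfF.const _)) (tcs τ)
      have h3 : val σ₀ = val σ := by
        refine ZFSet.ext fun z => ?_
        rw [h2]
        constructor
        · intro hz
          obtain ⟨π, h4, rfl⟩ := exists_mem_tcs hG hval (h ⟨z, hT _ ⟨σ₀, rfl⟩ z hz⟩ hz)
          exact ⟨π, h4, hz, rfl⟩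
        · rintro ⟨π, -, h4, rfl⟩
          exact h4
      refine ⟨σ, mem_pow.2 h1, fun y hy => ?_, Subtype.ext h3⟩
      rw [← h3] at hy
      exact h (vv val y) hy
  · -- infinity
    refine ⟨vv val (chk P om), ⟨vv val (chk P emp), ?_, ?_⟩, ?_⟩
    · intro y hy
      obtain ⟨z, hz, -⟩ := (mem_val_chk hG hval).1 hy
      exact not_mem_emp z hz
    · exact (mem_val_chk hG hval).2 ⟨emp, emp_mem_om, rfl⟩
    · intro x hx
      obtain ⟨m, hm, hxm⟩ := (mem_val_chk hG hval).1 hx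
      refine ⟨vv val (chk P (suc m)), ?_, (mem_val_chk hG hval).2 ⟨suc m, suc_mem_om hm, rfl⟩⟩
      have hx' : x = vv val (chk P m) := Subtype.ext hxm
      subst hx'
      intro z
      refine (mem_val_chk hG hval).trans ?_
      constructor
      · rintro ⟨y, hy, h⟩
        rcases mem_suc.1 hy with hy | rfl
        · exact Or.inl ((mem_val_chk hG hval).2 ⟨y, hy, h⟩)
        · exact Or.inr (Subtype.ext h)
      · rintro (h | rfl)
        · obtain ⟨y, hy, h⟩ := (mem_val_chk hG hval).1 h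
          exact ⟨y, mem_suc.2 (Or.inl hy), h⟩
        · exact ⟨m, mem_suc.2 (Or.inr rfl), rfl⟩
  · -- separation
    intro φ v a
    obtain ⟨τ, rfl⟩ := exists_name a
    choose p hp using fun i => exists_name (v i)
    obtain rfl : v = fun i => vv val (p i) := funext hp
    obtain ⟨b, hb⟩ := ex_set hG hval (Q := fun π => val π ∈ val τ ∧
      Sat (cons (vv val π) (fun i => vv val (p i))) φ)
      (Good.and (Good.vmem hval (DfF.var _) (DfF.const _)) (good_sat1 hval φ p)) (tcs τ)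
    refine ⟨b, fun x => (hb x).trans ?_⟩
    constructor
    · rintro ⟨π, -, h, rfl⟩
      exact h
    · rintro ⟨h1, h2⟩
      obtain ⟨π, h3, h4⟩ := exists_mem_tcs hG hval h1
      have hx : x = vv val π := Subtype.ext h4
      subst hx
      exact ⟨π, h3, ⟨h1, h2⟩, rfl⟩
  · -- replacement
    intro φ v a h
    obtain ⟨τ, rfl⟩ := exists_name a
    choose p hp using fun i => exists_name (v i)
    obtain rfl : v = fun i => vv val (p i) := funext hp
    obtain ⟨F, hF, hFQ⟩ := good_sat2 hval φ p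
    have hd : Df (fun w : Fin 2 → M => ∃ π q : M, w 0 = opair π q ∧ F q ![w 1, π]) := by
      refine Df.ex (P := fun π (w : Fin 2 → M) => ∃ q : M, w 0 = opair π q ∧ F q ![w 1, π]) ?_
      refine Df.ex (P := fun q (w : Fin 3 → M) => w 1 = opair (w 0) q ∧ F q ![w 2, w 0]) ?_
      refine Df.and (Df.eq (DfF.var 2) (DfF.Opair (DfF.var 1) (DfF.var 0))) ?_
      refine (hF.reindex (![0, 3, 1] : Fin 3 → Fin 4)).congr fun w => ?_
      have e : (![w 3, w 1] : Fin 2 → M) = fun i : Fin 2 => w ((![0, 3, 1] : Fin 3 → Fin 4) i.succ) := by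
        funext i
        refine Fin.cases ?_ (fun j => ?_) i
        · rfl
        · refine Fin.cases ?_ (fun j => j.elim0) j
          rfl
      show F (w 0) ![w 3, w 1] ↔ F (w 0) _
      rw [e]
    obtain ⟨B, hB⟩ := exists_coll (R := fun x y => ∃ π q : M, x = opair π q ∧ F q ![y, π]) hd
      (prod (tcs τ) P)
    obtain ⟨b, hb⟩ := ex_set hG hval (Q := fun σ => ∃ π : M, val π ∈ val τ ∧
      Sat (cons (vv val σ) (cons (vv val π) (fun i => vv val (p i)))) φ) (by
        refine Good.ex (Good.and (Good.vmem hval (DfF.var _) (DfF.const _)) ?_)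
        exact (good_sat2 hval φ p).reindex ![1, 0]) B
    refine ⟨b, fun y => (hb y).trans ?_⟩
    constructor
    · rintro ⟨σ, -, ⟨π, h1, h2⟩, rfl⟩
      exact ⟨vv val π, h1, h2⟩
    · rintro ⟨x, h1, h2⟩
      obtain ⟨π, h3, h4⟩ := exists_mem_tcs hG hval h1
      have hx : x = vv val π := Subtype.ext h4
      subst hx
      obtain ⟨σ, rfl⟩ := exists_name y
      obtain ⟨q, hq, h5⟩ := (hFQ ![σ, π]).1 h2
      obtain ⟨σ', h6, π', q', h7, h8⟩ := hB (opair π q) σ (opair_mem_prod.2 ⟨h3, hG.sub q hq⟩)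
        ⟨π, q, rfl, h5⟩
      obtain ⟨rfl, rfl⟩ := opair_inj.1 h7
      have h9 : Sat (cons (vv val σ') (cons (vv val π) (fun i => vv val (p i)))) φ :=
        (hFQ ![σ', π]).2 ⟨q, hq, h8⟩
      exact ⟨σ', h6, ⟨π, h1, h9⟩, (h _ h1).unique h2 h9⟩

end Pool.Agent.H.MP_a163f2_lc.Z
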