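import Pool.Agent.H.MP_a163f2_lc.Z.Names
import Pool.Agent.H.MP_a163f2_lc.Stmt

/-!
# Block Z, part 5: the extension, goodness of satisfaction, and the axioms of ZF
-/

set_option autoImplicit false
set_option linter.unusedSectionVars false

namespace Pool.Agent.H.MP_a163f2_lc.Z

open Pool.Agent.H.MP_07d118_lc

universe u

variable {M : Type u} [SetStr M] [ZF M] {n : ℕ}

/-- the generic extension -/
def Ex (val : M → ZFSet.{0}) : Set ZFSet.{0} := Set.range val

/-- the value of a name, as an element of the extension -/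
def vv (val : M → ZFSet.{0}) (τ : M) : Ex val := ⟨val τ, τ, rfl⟩

theorem exists_name {val : M → ZFSet.{0}} (x : Ex val) : ∃ τ : M, x = vv val τ := by
  obtain ⟨_, τ, rfl⟩ := x
  exact ⟨τ, rfl⟩

theorem ex_mem_iff {N : Set ZFSet.{0}} {x y : N} : x ∈ y ↔ x.1 ∈ y.1 := Iff.rfl

theorem ex_trans {G : Set M} {val : M → ZFSet.{0}} (hval : IsVal G val) : Trans (Ex val) := by
  rintro _ ⟨τ, rfl⟩ y hy
  obtain ⟨π, p, -, -, rfl⟩ := (hval τ y).1 hy
  exact ⟨π, rfl⟩

theorem DfF.App (p : ℕ → M) (i : ℕ) : DfF (fun v : Fin n → M => app n v p i) := by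
  by_cases h : i < n
  · have e : (fun v : Fin n → M => app n v p i) = fun v => v ⟨i, h⟩ := by
      funext v
      exact app_lt n v p i h
    rw [e]
    exact DfF.var _
  · have e : (fun v : Fin n → M => app n v p i) = fun _ => p (i - n) := by
      funext v
      conv_lhs => rw [show i = n + (i - n) by omega]
      exact app_ge n v p (i - n)
    rw [e]
    exact DfF.const _

theorem cons_vv {val : M → ZFSet.{0}} (π : M) (p : ℕ → M) :
    cons (vv val π) (fun i => vv val (p i)) = fun i => vv val (cons π p i) := by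
  funext i
  cases i <;> rfl

/-- satisfaction in the extension is good -/
theorem good_sat [Std M] {G : Set M} [Gn G] {val : M → ZFSet.{0}} (hval : IsVal G val) (φ : Fml) :
    ∀ (n : ℕ) (p : ℕ → M), Good G (fun v : Fin n → M => Sat (fun i => vv val (app n v p i)) φ) := by
  induction φ with
  | mem i j =>
    intro n p
    exact Good.vmem hval (DfF.App p i) (DfF.App p j)
  | eq i j =>
    intro n p
    refine Good.congr (Good.veq hval (DfF.App p i) (DfF.App p j)) fun v => ?_
    exact Subtype.ext_iff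
  | bot =>
    intro n p
    exact Good.of_df (Df.prop False)
  | imp φ ψ ih1 ih2 =>
    intro n p
    exact (ih1 n p).imp (ih2 n p)
  | all φ ih =>
    intro n p
    refine Good.congr (Good.all (Q := fun x v => Sat (fun i => vv val (cons x (app n v p) i)) φ)
      (ih (n + 1) p)) fun v => ?_
    constructor
    · intro h x
      rw [← cons_vv]
      exact h (vv val x)
    · intro h y
      obtain ⟨x, rfl⟩ := exists_name y
      rw [cons_vv]
      exact h x

/-- satisfaction for an assignment of names -/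
theorem good_sat1 [Std M] {G : Set M} [Gn G] {val : M → ZFSet.{0}} (hval : IsVal G val) (φ : Fml)
    (p : ℕ → M) : Good G (fun w : Fin 1 → M => Sat (cons (vv val (w 0)) (fun i => vv val (p i))) φ) :=
  (good_sat hval φ 1 p).congr fun w => by rw [cons_vv]; rfl

theorem good_sat2 [Std M] {G : Set M} [Gn G] {val : M → ZFSet.{0}} (hval : IsVal G val) (φ : Fml)
    (p : ℕ → M) : Good G (fun w : Fin 2 → M =>
      Sat (cons (vv val (w 0)) (cons (vv val (w 1)) (fun i => vv val (p i)))) φ) :=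
  (good_sat hval φ 2 p).congr fun w => by rw [cons_vv, cons_vv]; rfl

section gen

variable {P L : M} {G : Set M} (hG : Gen P L G) {val : M → ZFSet.{0}} (hval : IsVal G val)

include hG hval

/-- the separation principle for names -/
theorem ex_sep {Q : M → Prop} (hQ : Good G (fun w : Fin 1 → M => Q (w 0))) (A : M) :
    ∃ τ : M, Sub τ (prod A P) ∧ ∀ z, z ∈ val τ ↔ ∃ π : M, π ∈ A ∧ Q π ∧ z = val π := by
  obtain ⟨F, hF, h⟩ := hQ
  have hd : Df (fun w : Fin 1 → M => ∃ π p : M, w 0 = opair π p ∧ F p (fun _ => π)) := by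
    refine Df.ex (P := fun π (w : Fin 1 → M) => ∃ p : M, w 0 = opair π p ∧ F p (fun _ => π)) ?_
    refine Df.ex (P := fun p (w : Fin 2 → M) => w 1 = opair (w 0) p ∧ F p (fun _ => w 0)) ?_
    refine Df.and (Df.eq (DfF.var 2) (DfF.Opair (DfF.var 1) (DfF.var 0))) ?_
    exact hF.reindex (fun i : Fin 2 => Fin.cases (0 : Fin 3) (fun _ => 1) i)
  refine ⟨sep (prod A P) (fun z => ∃ π p : M, z = opair π p ∧ F p (fun _ => π)),
    fun z hz => ((mem_sep hd).1 hz).1, fun z => ?_⟩
  rw [hval]
  constructor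
  · rintro ⟨π, p, hp, h1, rfl⟩
    rw [mem_sep hd] at h1
    obtain ⟨h2, π', p', h3, h4⟩ := h1
    obtain ⟨rfl, rfl⟩ := opair_inj.1 h3
    exact ⟨π, (opair_mem_prod.1 h2).1, (h (fun _ => π)).2 ⟨p, hp, h4⟩, rfl⟩
  · rintro ⟨π, h1, h2, rfl⟩
    obtain ⟨p, hp, h3⟩ := (h (fun _ => π)).1 h2
    exact ⟨π, p, hp, (mem_sep hd).2 ⟨opair_mem_prod.2 ⟨h1, hG.sub p hp⟩, π, p, rfl, h3⟩, rfl⟩

end gen

/-! ### canonical names -/

/-- the canonical name of `x` -/
noncomputable def chk (P x : M) : M := rc (fun f x => prod (image x (fun y => ap f y)) P) x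

theorem chk_step_df (P : M) :
    DfF (fun w : Fin 2 → M => prod (image (w 1) (fun y => ap (w 0) y)) P) := by
  refine DfF.Prod (DfF.Image (DfF.var 1) (F := fun y w => ap (w 0) y) ?_) (DfF.const P)
  exact DfF.Ap (DfF.var 1) (DfF.var 0)

theorem DfF.Chk (P : M) {F : (Fin n → M) → M} (hF : DfF F) : DfF (fun v => chk P (F v)) :=
  DfF.Rc' (chk_step_df P) hF

section std

variable [Std M]

theorem chk_eq (P x : M) : chk P x = prod (image x (chk P)) P := by
  refine rc_eq' (x := x) (chk_step_df P) (K := fun x F => prod (image x F) P)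
    (fun f y => rfl) fun y F G h => ?_
  rw [image_congr h]

theorem mem_val_chk {P L : M} {G : Set M} (hG : Gen P L G) {val : M → ZFSet.{0}}
    (hval : IsVal G val) {x : M} {z : ZFSet.{0}} :
    z ∈ val (chk P x) ↔ ∃ y : M, y ∈ x ∧ z = val (chk P y) := by
  have hd : DfF (fun w : Fin 1 → M => chk P (w 0)) := DfF.Chk P (DfF.var 0)
  rw [hval, chk_eq]
  constructor
  · rintro ⟨π, p, -, h, rfl⟩
    obtain ⟨y, hy, rfl⟩ := (mem_image hd).1 (opair_mem_prod.1 h).1
    exact ⟨y, hy, rfl⟩
  · rintro ⟨y, hy, rfl⟩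
    obtain ⟨p, hp⟩ := hG.ne
    exact ⟨chk P y, p, hp, opair_mem_prod.2 ⟨(mem_image hd).2 ⟨y, hy, rfl⟩, hG.sub p hp⟩, rfl⟩

end std

end Pool.Agent.H.MP_a163f2_lc.Z
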