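import Pool.Agent.H.MP_a163f2_lc.Z.Rk

/-!
# Block Z, part 3: generic filters and good relations

`G` is a fixed generic filter over the model `M`. A relation `Q` on `M` (which may depend on `G`)
is good if there is a relation `F`, definable over `M`, such that `Q v` holds if and only if `F p v`
holds for some `p ∈ G`.
-/

set_option autoImplicit false
set_option linter.unusedSectionVars false

namespace Pool.Agent.H.MP_a163f2_lc.Z

open Pool.Agent.H.MP_07d118_lc

universe u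

variable {M : Type u} [SetStr M] [ZF M] {n k : ℕ}

/-- `p ≤ q` in the preordered set `P` with the order `L` -/
def Ple (P L p q : M) : Prop := p ∈ P ∧ q ∈ P ∧ opair p q ∈ L

theorem Df.ple {P L : M} {F G : (Fin n → M) → M} (hF : DfF F) (hG : DfF G) :
    Df (fun v => Ple P L (F v) (G v)) :=
  Df.and (Df.mem hF (DfF.const _)) (Df.and (Df.mem hG (DfF.const _))
    (Df.mem (DfF.Opair hF hG) (DfF.const _)))

/-- `G` is a generic filter over `M` of the preordered set `P` with the order `L` -/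
structure Gen (P L : M) (G : Set M) : Prop where
  refl : ∀ p : M, p ∈ P → Ple P L p p
  trans : ∀ p q r : M, Ple P L p q → Ple P L q r → Ple P L p r
  sub : ∀ p : M, G p → p ∈ P
  ne : ∃ p : M, G p
  up : ∀ p q : M, G p → Ple P L p q → G q
  dir : ∀ p q : M, G p → G q → ∃ r : M, G r ∧ Ple P L r p ∧ Ple P L r q
  meets : ∀ D : M, (∀ p : M, p ∈ P → ∃ q : M, Ple P L q p ∧ q ∈ D) → ∃ p : M, G p ∧ p ∈ D

section gen

variable {P L : M} {G : Set M}

/-- a definable dense set meets `G` -/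
theorem Gen.dense (hG : Gen P L G) {D : M → Prop} (hD : Df (fun w : Fin 1 → M => D (w 0)))
    (h : ∀ p : M, p ∈ P → ∃ q : M, Ple P L q p ∧ D q) : ∃ p : M, G p ∧ D p := by
  obtain ⟨p, hp, hpD⟩ := hG.meets (sep P D) fun p hp => by
    obtain ⟨q, hq, hqD⟩ := h p hp
    exact ⟨q, hq, (mem_sep hD).2 ⟨hq.1, hqD⟩⟩
  exact ⟨p, hp, ((mem_sep hD).1 hpD).2⟩

/-- a definable set which is dense below `p ∈ G` meets `G` -/
theorem Gen.below (hG : Gen P L G) {D : M → Prop} (hD : Df (fun w : Fin 1 → M => D (w 0)))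
    {p : M} (hp : G p) (h : ∀ q : M, Ple P L q p → ∃ r : M, Ple P L r q ∧ D r) :
    ∃ r : M, G r ∧ D r := by
  have hd : Df (fun w : Fin 1 → M => D (w 0) ∨ ∀ s : M, Ple P L s (w 0) → ¬ Ple P L s p) := by
    refine Df.or hD (Df.all (Df.imp (Df.ple (DfF.var _) (DfF.var _))
      (Df.not (Df.ple (DfF.var _) (DfF.const _)))))
  obtain ⟨r, hr, h1 | h1⟩ := hG.dense (D := fun r => D r ∨ ∀ s : M, Ple P L s r → ¬ Ple P L s p)
      hd fun q hq => by
    by_cases hc : ∃ s : M, Ple P L s q ∧ Ple P L s p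
    · obtain ⟨s, h1, h2⟩ := hc
      obtain ⟨r, h3, h4⟩ := h s h2
      exact ⟨r, hG.trans _ _ _ h3 h1, Or.inl h4⟩
    · exact ⟨q, hG.refl q hq, Or.inr fun s h1 h2 => hc ⟨s, h1, h2⟩⟩
  · exact ⟨r, hr, h1⟩
  · obtain ⟨s, -, h2, h3⟩ := hG.dir r p hr hp
    exact absurd h3 (h1 s h2)

end gen

/-- `G` is a generic filter of some preordered set -/
class Gn (G : Set M) : Prop where
  ex : ∃ P L : M, Gen P L G

/-- good relations -/
def Good (G : Set M) (Q : (Fin n → M) → Prop) : Prop :=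
  ∃ F : M → (Fin n → M) → Prop, Df (fun w : Fin (n + 1) → M => F (w 0) (fun i => w i.succ)) ∧
    ∀ v, Q v ↔ ∃ p : M, G p ∧ F p v

variable {G : Set M}

theorem Good.congr {Q R : (Fin n → M) → Prop} (h : Good G Q) (e : ∀ v, R v ↔ Q v) : Good G R := by
  obtain ⟨F, hF, h⟩ := h
  exact ⟨F, hF, fun v => (e v).trans (h v)⟩

theorem Good.reindex {Q : (Fin k → M) → Prop} (h : Good G Q) (ρ : Fin k → Fin n) :
    Good G (fun w : Fin n → M => Q (fun i => w (ρ i))) := by
  obtain ⟨F, hF, h⟩ := h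
  refine ⟨fun p v => F p (fun i => v (ρ i)), ?_, fun v => h _⟩
  exact hF.reindex (fun i : Fin (k + 1) => Fin.cases (0 : Fin (n + 1)) (fun j => (ρ j).succ) i)

theorem Good.memG {F : (Fin n → M) → M} (hF : DfF F) : Good G (fun v => G (F v)) := by
  refine ⟨fun p v => p = F v, Df.eq (DfF.var 0) (hF.wk Fin.succ), fun v => ?_⟩
  simp

theorem Good.ex {Q : M → (Fin n → M) → Prop}
    (h : Good G (fun w : Fin (n + 1) → M => Q (w 0) (fun i => w i.succ))) :
    Good G (fun v => ∃ x, Q x v) := by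
  obtain ⟨F, hF, h⟩ := h
  refine ⟨fun p v => ∃ x, F p (Fin.cons x v), ?_, fun v => ?_⟩
  · refine Df.ex (P := fun x (w : Fin (n + 1) → M) => F (w 0) (Fin.cons x (fun i => w i.succ))) ?_
    refine (hF.reindex (fun i : Fin (n + 2) => Fin.cases (1 : Fin (n + 2)) (fun i => Fin.cases 0
      (fun j => j.succ.succ) i) i)).congr fun w => ?_
    have e : (Fin.cons (w 0) (fun i => w i.succ.succ) : Fin (n + 1) → M) =
        fun i : Fin (n + 1) => w (Fin.cases 0 (fun j => j.succ.succ) i) := by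
      funext i
      refine Fin.cases ?_ (fun j => ?_) i <;> rfl
    show F (w 1) _ ↔ F (w 1) _
    rw [e]
    rfl
  · constructor
    · rintro ⟨x, hx⟩
      obtain ⟨p, hp, h1⟩ := (h (Fin.cons x v)).1 hx
      exact ⟨p, hp, x, h1⟩
    · rintro ⟨p, hp, x, h1⟩
      exact ⟨x, (h (Fin.cons x v)).2 ⟨p, hp, h1⟩⟩

section gn

variable [hGn : Gn G]

theorem Good.of_df {Q : (Fin n → M) → Prop} (h : Df Q) : Good G Q := by
  obtain ⟨P, L, hG⟩ := hGn.ex
  obtain ⟨p, hp⟩ := hG.ne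
  exact ⟨fun _ v => Q v, h.reindex Fin.succ, fun v => ⟨fun h => ⟨p, hp, h⟩, fun ⟨_, _, h⟩ => h⟩⟩

theorem Good.not {Q : (Fin n → M) → Prop} (h : Good G Q) : Good G (fun v => ¬ Q v) := by
  obtain ⟨P, L, hG⟩ := hGn.ex
  obtain ⟨F, hF, h⟩ := h
  refine ⟨fun p v => ∀ q r : M, Ple P L q p → Ple P L q r → ¬ F r v, ?_, fun v => ?_⟩
  · refine Df.all (P := fun q (w : Fin (n + 1) → M) => ∀ r : M, Ple P L q (w 0) → Ple P L q r →
      ¬ F r (fun i => w i.succ)) ?_
    refine Df.all (P := fun r (w : Fin (n + 2) → M) => Ple P L (w 0) (w 1) → Ple P L (w 0) r →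
      ¬ F r (fun i => w i.succ.succ)) ?_
    refine Df.imp (Df.ple (DfF.var 1) (DfF.var 2)) (Df.imp (Df.ple (DfF.var 1) (DfF.var 0))
      (Df.not ?_))
    exact hF.reindex (fun i : Fin (n + 1) => Fin.cases (0 : Fin (n + 3))
      (fun j => j.succ.succ.succ) i)
  · have hd : Df (fun w : Fin 1 → M => (∀ q r : M, Ple P L q (w 0) → Ple P L q r → ¬ F r v) ∨
        ∃ r : M, Ple P L (w 0) r ∧ F r v) := by
      have h1 : ∀ m : ℕ, Df (fun w : Fin (m + 1) → M => F (w 0) v) := fun m =>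
        (Df.fix (P := F) hF v).reindex (fun _ => 0)
      refine Df.or ?_ ?_
      · refine Df.all (Df.all (Df.imp ?_ (Df.imp ?_ ?_)))
        · exact Df.ple (DfF.var 1) (DfF.var 2)
        · exact Df.ple (DfF.var 1) (DfF.var 0)
        · exact (h1 2).not
      · refine Df.ex (Df.and ?_ ?_)
        · exact Df.ple (DfF.var 1) (DfF.var 0)
        · exact h1 1
    constructor
    · intro hQ
      obtain ⟨p, hp, h1 | ⟨r, h1, h2⟩⟩ := hG.dense (D := fun p =>
          (∀ q r : M, Ple P L q p → Ple P L q r → ¬ F r v) ∨ ∃ r : M, Ple P L p r ∧ F r v)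
          hd fun p hp => by
        by_cases hc : ∀ q r : M, Ple P L q p → Ple P L q r → ¬ F r v
        · exact ⟨p, hG.refl p hp, Or.inl hc⟩
        · push Not at hc
          obtain ⟨q, r, h1, h2, h3⟩ := hc
          exact ⟨q, h1, Or.inr ⟨r, h2, h3⟩⟩
      · exact ⟨p, hp, h1⟩
      · exact absurd ((h v).2 ⟨r, hG.up p r hp h1, h2⟩) hQ
    · rintro ⟨p, hp, h1⟩ hQ
      obtain ⟨r, hr, h2⟩ := (h v).1 hQ
      obtain ⟨q, -, h3, h4⟩ := hG.dir p r hp hr
      exact h1 q r h3 h4 h2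

theorem Good.and {Q R : (Fin n → M) → Prop} (hQ : Good G Q) (hR : Good G R) :
    Good G (fun v => Q v ∧ R v) := by
  obtain ⟨P, L, hG⟩ := hGn.ex
  obtain ⟨F, hF, hQ⟩ := hQ
  obtain ⟨F', hF', hR⟩ := hR
  have key : ∀ F : M → (Fin n → M) → Prop, Df (fun w : Fin (n + 1) → M => F (w 0) (fun i => w i.succ))
      → Df (fun w : Fin (n + 1) → M => ∃ q : M, Ple P L (w 0) q ∧ F q (fun i => w i.succ)) := by
    intro F hF
    refine Df.ex (P := fun q (w : Fin (n + 1) → M) => Ple P L (w 0) q ∧ F q (fun i => w i.succ)) ?_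
    refine Df.and (Df.ple (DfF.var 1) (DfF.var 0)) ?_
    exact hF.reindex (fun i : Fin (n + 1) => Fin.cases (0 : Fin (n + 2)) (fun j => j.succ.succ) i)
  refine ⟨fun p v => (∃ q : M, Ple P L p q ∧ F q v) ∧ ∃ q : M, Ple P L p q ∧ F' q v,
    Df.and (key F hF) (key F' hF'), fun v => ?_⟩
  constructor
  · rintro ⟨h1, h2⟩
    obtain ⟨p, hp, h3⟩ := (hQ v).1 h1
    obtain ⟨q, hq, h4⟩ := (hR v).1 h2
    obtain ⟨r, hr, h5, h6⟩ := hG.dir p q hp hq
    exact ⟨r, hr, ⟨p, h5, h3⟩, q, h6, h4⟩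
  · rintro ⟨p, hp, ⟨q, h1, h2⟩, r, h3, h4⟩
    exact ⟨(hQ v).2 ⟨q, hG.up p q hp h1, h2⟩, (hR v).2 ⟨r, hG.up p r hp h3, h4⟩⟩

theorem Good.or {Q R : (Fin n → M) → Prop} (hQ : Good G Q) (hR : Good G R) :
    Good G (fun v => Q v ∨ R v) :=
  (hQ.not.and hR.not).not.congr fun v => by tauto

theorem Good.imp {Q R : (Fin n → M) → Prop} (hQ : Good G Q) (hR : Good G R) :
    Good G (fun v => Q v → R v) :=
  (hQ.and hR.not).not.congr fun v => by tauto

theorem Good.iff {Q R : (Fin n → M) → Prop} (hQ : Good G Q) (hR : Good G R) :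
    Good G (fun v => Q v ↔ R v) :=
  ((hQ.imp hR).and (hR.imp hQ)).congr fun v => by tauto

theorem Good.all {Q : M → (Fin n → M) → Prop}
    (h : Good G (fun w : Fin (n + 1) → M => Q (w 0) (fun i => w i.succ))) :
    Good G (fun v => ∀ x, Q x v) :=
  (Good.ex (Q := fun x v => ¬ Q x v) h.not).not.congr fun v => by simp

/-- substitution of a definable function -/
theorem Good.sub {Q : M → (Fin n → M) → Prop}
    (h : Good G (fun w : Fin (n + 1) → M => Q (w 0) (fun i => w i.succ)))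
    {F : (Fin n → M) → M} (hF : DfF F) : Good G (fun v => Q (F v) v) :=
  (Good.ex (Q := fun x v => x = F v ∧ Q x v) (Good.and (Good.of_df hF.out) h)).congr
    fun v => by simp

theorem Good.comp1 {Q : M → Prop} (h : Good G (fun w : Fin 1 → M => Q (w 0)))
    {F : (Fin n → M) → M} (hF : DfF F) : Good G (fun v => Q (F v)) :=
  Good.sub (Q := fun x _ => Q x) (h.reindex (fun _ => 0)) hF

theorem Good.comp2 {Q : M → M → Prop} (h : Good G (fun w : Fin 2 → M => Q (w 0) (w 1)))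
    {F K : (Fin n → M) → M} (hF : DfF F) (hK : DfF K) : Good G (fun v => Q (F v) (K v)) := by
  refine Good.sub (Q := fun x v => Q x (K v)) ?_ hF
  refine Good.sub (Q := fun y w => Q (w 0) y) ?_ (hK.wk Fin.succ)
  exact h.reindex ![1, 0]

end gn

end Pool.Agent.H.MP_a163f2_lc.Z
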