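import Pool.Agent.H.MP_a163f2_lc.Z.Good

/-!
# Block Z, part 4: names, their values, and the truth lemma for equality

All elements of `M` are names. The value of the name `τ` is the set of the values of the `π` with
`(π, p) ∈ τ` for some `p ∈ G`.
-/

set_option autoImplicit false
set_option linter.unusedSectionVars false

namespace Pool.Agent.H.MP_a163f2_lc.Z

open Pool.Agent.H.MP_07d118_lc

universe u

variable {M : Type u} [SetStr M] [ZF M] {n : ℕ}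

/-- `val` evaluates names by means of the filter `G` -/
def IsVal (G : Set M) (val : M → ZFSet.{0}) : Prop :=
  ∀ (τ : M) (z : ZFSet.{0}), z ∈ val τ ↔ ∃ π p : M, G p ∧ opair π p ∈ τ ∧ z = val π

theorem mem_of_opair_mem {t π s τ : M} (ht : Trs t) (hτ : τ ∈ t) (h : opair π s ∈ τ) :
    π ∈ t ∧ s ∈ t := by
  have h1 : opair π s ∈ t := ht τ hτ _ h
  have h2 : upair π s ∈ t := ht _ h1 _ (mem_upair.2 (Or.inr rfl))
  exact ⟨ht _ h2 _ (mem_upair.2 (Or.inl rfl)), ht _ h2 _ (mem_upair.2 (Or.inr rfl))⟩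

theorem rk_of_opair_mem [Std M] {π s τ : M} (h : opair π s ∈ τ) : rk π < rk τ :=
  ((rk_lt (mem_upair.2 (Or.inl rfl) : π ∈ upair π s)).trans
    (rk_lt (mem_upair.2 (Or.inr rfl) : upair π s ∈ opair π s))).trans (rk_lt h)

/-! ### the forcing relation for equality -/

/-- the triple `(p, τ, σ)` -/
noncomputable def trip (p τ σ : M) : M := opair (opair p τ) σ

theorem trip_inj {p τ σ p' τ' σ' : M} :
    trip p τ σ = trip p' τ' σ' ↔ p = p' ∧ τ = τ' ∧ σ = σ' := by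
  unfold trip
  rw [opair_inj, opair_inj, and_assoc]

theorem DfF.Trip {F G H : (Fin n → M) → M} (hF : DfF F) (hG : DfF G) (hH : DfF H) :
    DfF (fun v => trip (F v) (G v) (H v)) := DfF.Opair (DfF.Opair hF hG) hH

section fix

variable (P L : M)

/-- one step of a forced bisimulation -/
def Fm (X : M → M → M → Prop) (p τ σ : M) : Prop :=
  (∀ π s q : M, opair π s ∈ τ → Ple P L q p → Ple P L q s →
    ∃ r : M, Ple P L r q ∧ ∃ ρ t : M, opair ρ t ∈ σ ∧ Ple P L r t ∧ X r π ρ) ∧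
  (∀ ρ t q : M, opair ρ t ∈ σ → Ple P L q p → Ple P L q t →
    ∃ r : M, Ple P L r q ∧ ∃ π s : M, opair π s ∈ τ ∧ Ple P L r s ∧ X r π ρ)

theorem Fm.mono {X Y : M → M → M → Prop} {p τ σ : M} (h : Fm P L X p τ σ)
    (hXY : ∀ r π ρ s t : M, r ∈ P → opair π s ∈ τ → opair ρ t ∈ σ → X r π ρ → Y r π ρ) :
    Fm P L Y p τ σ := by
  constructor
  · intro π s q h1 h2 h3
    obtain ⟨r, h4, ρ, t, h5, h6, h7⟩ := h.1 π s q h1 h2 h3
    exact ⟨r, h4, ρ, t, h5, h6, hXY r π ρ s t h4.1 h1 h5 h7⟩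
  · intro ρ t q h1 h2 h3
    obtain ⟨r, h4, π, s, h5, h6, h7⟩ := h.2 ρ t q h1 h2 h3
    exact ⟨r, h4, π, s, h5, h6, hXY r π ρ s t h4.1 h5 h1 h7⟩

/-- `B` is a forced bisimulation -/
def Bis (B : M) : Prop :=
  ∀ p τ σ : M, trip p τ σ ∈ B → Fm P L (fun r π ρ => trip r π ρ ∈ B) p τ σ

/-- `p` forces `τ = σ` -/
def Feq (p τ σ : M) : Prop := ∃ B : M, Bis P L B ∧ trip p τ σ ∈ B

theorem Df.feq {p τ σ : (Fin n → M) → M} (hp : DfF p) (hτ : DfF τ) (hσ : DfF σ) :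
    Df (fun v => Feq P L (p v) (τ v) (σ v)) := by
  refine Df.comp3 (P := Feq P L) ?_ hp hτ hσ
  unfold Feq Bis Fm
  apply_rules (transparency := .reducible) (maxDepth := 1000) [Df.ex, Df.and, Df.all, Df.imp,
    Df.mem, Df.ple, DfF.Opair, DfF.Trip, DfF.var, DfF.const]

theorem Df.fmfeq {p τ σ : (Fin n → M) → M} (hp : DfF p) (hτ : DfF τ) (hσ : DfF σ) :
    Df (fun v => Fm P L (Feq P L) (p v) (τ v) (σ v)) := by
  refine Df.comp3 (P := fun p τ σ => Fm P L (Feq P L) p τ σ) ?_ hp hτ hσ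
  unfold Fm
  apply_rules (transparency := .reducible) (maxDepth := 1000) [Df.ex, Df.and, Df.all, Df.imp,
    Df.mem, Df.ple, Df.feq, DfF.Opair, DfF.Trip, DfF.var, DfF.const]

variable {P L}

theorem Feq.fm {p τ σ : M} (h : Feq P L p τ σ) : Fm P L (Feq P L) p τ σ := by
  obtain ⟨B, hB, h⟩ := h
  exact Fm.mono P L (hB p τ σ h) fun r π ρ _ _ _ _ _ hX => ⟨B, hB, hX⟩

theorem feq_of_fm [Std M] {p τ σ : M} (hp : p ∈ P) (h : Fm P L (Feq P L) p τ σ) :
    Feq P L p τ σ := by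
  obtain ⟨T, hT, hτ, hσ⟩ : ∃ T : M, Trs T ∧ τ ∈ T ∧ σ ∈ T :=
    ⟨tc (upair τ σ), tc_trs _, sub_tc _ _ (mem_upair.2 (Or.inl rfl)),
      sub_tc _ _ (mem_upair.2 (Or.inr rfl))⟩
  have hd : Df (fun w : Fin 1 → M => ∃ r π ρ : M, w 0 = trip r π ρ ∧ Fm P L (Feq P L) r π ρ) := by
    apply_rules (transparency := .reducible) (maxDepth := 1000) [Df.ex, Df.and, Df.eq, Df.fmfeq,
      DfF.Trip, DfF.var]
  have hm : ∀ r π ρ : M, trip r π ρ ∈ sep (prod (prod P T) T) (fun z => ∃ r π ρ : M,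
      z = trip r π ρ ∧ Fm P L (Feq P L) r π ρ) ↔ r ∈ P ∧ π ∈ T ∧ ρ ∈ T ∧
      Fm P L (Feq P L) r π ρ := by
    intro r π ρ
    rw [mem_sep hd]
    constructor
    · rintro ⟨h1, r', π', ρ', h2, h3⟩
      obtain ⟨rfl, rfl, rfl⟩ := trip_inj.1 h2
      obtain ⟨h4, h5⟩ := opair_mem_prod.1 h1
      obtain ⟨h6, h7⟩ := opair_mem_prod.1 h4
      exact ⟨h6, h7, h5, h3⟩
    · rintro ⟨h1, h2, h3, h4⟩
      exact ⟨opair_mem_prod.2 ⟨opair_mem_prod.2 ⟨h1, h2⟩, h3⟩, r, π, ρ, rfl, h4⟩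
  refine ⟨_, fun r π ρ h1 => ?_, (hm _ _ _).2 ⟨hp, hτ, hσ, h⟩⟩
  obtain ⟨h2, h3, h4, h5⟩ := (hm _ _ _).1 h1
  refine Fm.mono P L h5 fun r' π' ρ' s t hr hs ht hX => (hm _ _ _).2 ⟨hr, ?_, ?_, hX.fm⟩
  · exact (mem_of_opair_mem hT h3 hs).1
  · exact (mem_of_opair_mem hT h4 ht).1

section gen

variable {G : Set M} (hG : Gen P L G)

include hG

theorem feq_mono [Std M] {p q τ σ : M} (h : Feq P L p τ σ) (hq : Ple P L q p) :
    Feq P L q τ σ := by
  refine feq_of_fm hq.1 ?_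
  have h1 := h.fm
  exact ⟨fun π s q' h2 h3 h4 => h1.1 π s q' h2 (hG.trans _ _ _ h3 hq) h4,
    fun ρ t q' h2 h3 h4 => h1.2 ρ t q' h2 (hG.trans _ _ _ h3 hq) h4⟩

variable {val : M → ZFSet.{0}} (hval : IsVal G val)

include hval

theorem eq_of_feq [Std M] {p τ σ : M} (hp : G p) (h : Feq P L p τ σ) : val τ = val σ := by
  obtain ⟨α, hα⟩ : ∃ α, rk τ = α := ⟨_, rfl⟩
  induction α using WellFoundedLT.induction generalizing p τ σ with
  | ind α ih =>
    have hfm := h.fm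
    refine ZFSet.ext fun z => ?_
    rw [hval τ z, hval σ z]
    constructor
    · rintro ⟨π, s, hs, hπ, rfl⟩
      obtain ⟨p', hp', h1, h2⟩ := hG.dir p s hp hs
      have hd : Df (fun w : Fin 1 → M => ∃ ρ t : M, opair ρ t ∈ σ ∧ Ple P L (w 0) t ∧
          Feq P L (w 0) π ρ) := by
        apply_rules (transparency := .reducible) (maxDepth := 1000) [Df.ex, Df.and, Df.mem,
          Df.ple, Df.feq, DfF.Opair, DfF.var, DfF.const]
      obtain ⟨r, hr, ρ, t, h3, h4, h5⟩ := hG.below (D := fun r => ∃ ρ t : M, opair ρ t ∈ σ ∧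
        Ple P L r t ∧ Feq P L r π ρ) hd hp' fun q hq =>
          hfm.1 π s q hπ (hG.trans _ _ _ hq h1) (hG.trans _ _ _ hq h2)
      exact ⟨ρ, t, hG.up _ _ hr h4, h3, ih (rk π) (hα ▸ rk_of_opair_mem hπ) hr h5 rfl⟩
    · rintro ⟨ρ, t, ht, hρ, rfl⟩
      obtain ⟨p', hp', h1, h2⟩ := hG.dir p t hp ht
      have hd : Df (fun w : Fin 1 → M => ∃ π s : M, opair π s ∈ τ ∧ Ple P L (w 0) s ∧
          Feq P L (w 0) π ρ) := by
        apply_rules (transparency := .reducible) (maxDepth := 1000) [Df.ex, Df.and, Df.mem,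
          Df.ple, Df.feq, DfF.Opair, DfF.var, DfF.const]
      obtain ⟨r, hr, π, s, h3, h4, h5⟩ := hG.below (D := fun r => ∃ π s : M, opair π s ∈ τ ∧
        Ple P L r s ∧ Feq P L r π ρ) hd hp' fun q hq =>
          hfm.2 ρ t q hρ (hG.trans _ _ _ hq h1) (hG.trans _ _ _ hq h2)
      exact ⟨π, s, hG.up _ _ hr h4, h3, (ih (rk π) (hα ▸ rk_of_opair_mem h3) hr h5 rfl).symm⟩

theorem feq_of_eq [Std M] {τ σ : M} (h : val τ = val σ) : ∃ p : M, G p ∧ Feq P L p τ σ := by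
  obtain ⟨α, hα⟩ : ∃ α, rk τ = α := ⟨_, rfl⟩
  induction α using WellFoundedLT.induction generalizing τ σ with
  | ind α ih =>
    have hd : Df (fun w : Fin 1 → M => Feq P L (w 0) τ σ ∨
        (∃ π s : M, opair π s ∈ τ ∧ Ple P L (w 0) s ∧ ∀ r ρ t : M, Ple P L r (w 0) →
          opair ρ t ∈ σ → Ple P L r t → ¬ Feq P L r π ρ) ∨
        (∃ ρ t : M, opair ρ t ∈ σ ∧ Ple P L (w 0) t ∧ ∀ r π s : M, Ple P L r (w 0) →
          opair π s ∈ τ → Ple P L r s → ¬ Feq P L r π ρ)) := by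
      apply_rules (transparency := .reducible) (maxDepth := 1000) [Df.ex, Df.and, Df.or, Df.not,
        Df.all, Df.imp, Df.mem, Df.ple, Df.feq, DfF.Opair, DfF.var, DfF.const]
    obtain ⟨p, hp, h1 | ⟨π, s, hπ, hps, h1⟩ | ⟨ρ, t, hρ, hpt, h1⟩⟩ := hG.dense
      (D := fun p => Feq P L p τ σ ∨
        (∃ π s : M, opair π s ∈ τ ∧ Ple P L p s ∧ ∀ r ρ t : M, Ple P L r p →
          opair ρ t ∈ σ → Ple P L r t → ¬ Feq P L r π ρ) ∨
        (∃ ρ t : M, opair ρ t ∈ σ ∧ Ple P L p t ∧ ∀ r π s : M, Ple P L r p →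
          opair π s ∈ τ → Ple P L r s → ¬ Feq P L r π ρ)) hd (fun p hp => by
        by_cases hF : Feq P L p τ σ
        · exact ⟨p, hG.refl p hp, Or.inl hF⟩
        · have hn : ¬ Fm P L (Feq P L) p τ σ := fun h => hF (feq_of_fm hp h)
          rw [Fm, not_and_or] at hn
          rcases hn with hn | hn
          · push Not at hn
            obtain ⟨π, s, q, h1, h2, h3, h4⟩ := hn
            exact ⟨q, h2, Or.inr (Or.inl ⟨π, s, h1, h3, fun r ρ t h5 h6 h7 =>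
              h4 r h5 ρ t h6 h7⟩)⟩
          · push Not at hn
            obtain ⟨ρ, t, q, h1, h2, h3, h4⟩ := hn
            exact ⟨q, h2, Or.inr (Or.inr ⟨ρ, t, h1, h3, fun r π s h5 h6 h7 =>
              h4 r h5 π s h6 h7⟩)⟩)
    · exact ⟨p, hp, h1⟩
    · have h2 : val π ∈ val σ := by
        rw [← h, hval τ]
        exact ⟨π, s, hG.up _ _ hp hps, hπ, rfl⟩
      obtain ⟨ρ, t, ht, hρ, he⟩ := (hval σ _).1 h2
      obtain ⟨p', hp', h3⟩ := ih (rk π) (hα ▸ rk_of_opair_mem hπ) he rfl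
      obtain ⟨q, hq, h4, h5⟩ := hG.dir p p' hp hp'
      obtain ⟨r, hr, h6, h7⟩ := hG.dir q t hq ht
      exact absurd (feq_mono hG h3 (hG.trans _ _ _ h6 h5))
        (h1 r ρ t (hG.trans _ _ _ h6 h4) hρ h7)
    · have h2 : val ρ ∈ val τ := by
        rw [h, hval σ]
        exact ⟨ρ, t, hG.up _ _ hp hpt, hρ, rfl⟩
      obtain ⟨π, s, hs, hπ, he⟩ := (hval τ _).1 h2
      obtain ⟨p', hp', h3⟩ := ih (rk π) (hα ▸ rk_of_opair_mem hπ) he.symm rfl
      obtain ⟨q, hq, h4, h5⟩ := hG.dir p p' hp hp'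
      obtain ⟨r, hr, h6, h7⟩ := hG.dir q s hq hs
      exact absurd (feq_mono hG h3 (hG.trans _ _ _ h6 h5))
        (h1 r π s (hG.trans _ _ _ h6 h4) hπ h7)

end gen

end fix

section good

variable [Std M] {G : Set M} [hGn : Gn G] {val : M → ZFSet.{0}} (hval : IsVal G val)

include hval

theorem Good.veq {F K : (Fin n → M) → M} (hF : DfF F) (hK : DfF K) :
    Good G (fun v => val (F v) = val (K v)) := by
  obtain ⟨P, L, hG⟩ := hGn.ex
  refine Good.comp2 (Q := fun x y => val x = val y) ?_ hF hK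
  refine ⟨fun p w => Feq P L p (w 0) (w 1), Df.feq P L (DfF.var _) (DfF.var _) (DfF.var _),
    fun w => ⟨feq_of_eq hG hval, fun ⟨p, hp, h⟩ => eq_of_feq hG hval hp h⟩⟩

theorem Good.vmem {F K : (Fin n → M) → M} (hF : DfF F) (hK : DfF K) :
    Good G (fun v => val (F v) ∈ val (K v)) := by
  refine Good.comp2 (Q := fun x y => val x ∈ val y) ?_ hF hK
  refine Good.congr (Q := fun w : Fin 2 → M => ∃ π p : M, G p ∧ opair π p ∈ w 1 ∧
    val (w 0) = val π) ?_ fun w => hval _ _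
  refine Good.ex (Good.ex (Good.and ?_ (Good.and ?_ ?_)))
  · exact Good.memG (DfF.var 0)
  · exact Good.of_df (Df.mem (DfF.Opair (DfF.var 1) (DfF.var 0)) (DfF.var 3))
  · exact Good.veq hval (DfF.var 2) (DfF.var 1)

end good

end Pool.Agent.H.MP_a163f2_lc.Z
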