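import Pool.Agent.H.MP_07d118_lc.Nat
import Pool.Agent.H.MP_a163f2_lc.T1

/-!
# Block Z, part 1: transitive closures and recursion on the membership relation

`M` is a standard (well founded) model of ZF.
-/

set_option autoImplicit false
set_option linter.unusedSectionVars false

namespace Pool.Agent.H.MP_a163f2_lc

open Pool.Agent.H.MP_07d118_lc

universe u

variable {M : Type u} [SetStr M] [ZF M] {n : ℕ}

/-- external induction on the membership relation -/
theorem mem_ind [Std M] {P : M → Prop} (h : ∀ x : M, (∀ y : M, y ∈ x → P y) → P x) (x : M) :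
    P x :=
  Std.wf.induction x h

/-- `t` is transitive -/
def Trs (t : M) : Prop := ∀ x : M, x ∈ t → Sub x t

theorem Df.trs {F : (Fin n → M) → M} (hF : DfF F) : Df (fun v => Trs (F v)) :=
  Df.comp1 (P := fun t => Trs t) (Df.all (Df.imp (Df.mem (DfF.var _) (DfF.var _))
    (Df.subset (DfF.var _) (DfF.var _)))) hF

/-- `t` is the transitive closure of `x` -/
def IsTc (t x : M) : Prop := Trs t ∧ Sub x t ∧ ∀ t' : M, Trs t' → Sub x t' → Sub t t'

theorem Df.isTc {F G : (Fin n → M) → M} (hF : DfF F) (hG : DfF G) :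
    Df (fun v => IsTc (F v) (G v)) := by
  refine Df.comp2 (P := fun t x => IsTc t x) ?_ hF hG
  unfold IsTc
  apply_rules (transparency := .reducible) [Df.and, Df.all, Df.imp, Df.trs, Df.subset, DfF.var]

/-- the transitive closure -/
noncomputable def tc (x : M) : M := iota (fun t => IsTc t x)

theorem DfF.Tc {F : (Fin n → M) → M} (hF : DfF F) : DfF (fun v => tc (F v)) := by
  refine DfF.comp1 (F := tc) ?_ hF
  exact DfF.Iota (P := fun t w => IsTc t (w 0)) (Df.isTc (DfF.var _) (DfF.var _))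

theorem isTc_unique {t t' x : M} (h : IsTc t x) (h' : IsTc t' x) : t = t' :=
  (h.2.2 t' h'.1 h'.2.1).antisymm (h'.2.2 t h.1 h.2.1)

/-- the least transitive set which contains `x` as an element -/
noncomputable def tcs (x : M) : M := un (tc x) (upair x x)

theorem DfF.Tcs {F : (Fin n → M) → M} (hF : DfF F) : DfF (fun v => tcs (F v)) := by
  unfold tcs
  apply_rules [DfF.Un, DfF.Upair, DfF.Tc]

section std

variable [Std M]

theorem exists_tc (x : M) : ∃! t : M, IsTc t x := by
  induction x using mem_ind with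
  | h x ih =>
    have hy : ∀ y : M, y ∈ x → IsTc (tc y) y := fun y h => iota_spec (ih y h)
    have hd : DfF (fun w : Fin 1 → M => tc (w 0)) := DfF.Tc (DfF.var 0)
    have hm : ∀ z : M, z ∈ un x (sUn (image x tc)) ↔ z ∈ x ∨ ∃ y : M, y ∈ x ∧ z ∈ tc y := by
      intro z
      rw [mem_un, mem_sUn]
      refine or_congr_right ?_
      constructor
      · rintro ⟨w, hw, hz⟩
        obtain ⟨y, hyx, rfl⟩ := (mem_image hd).1 hw
        exact ⟨y, hyx, hz⟩
      · rintro ⟨y, hyx, hz⟩
        exact ⟨tc y, (mem_image hd).2 ⟨y, hyx, rfl⟩, hz⟩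
    have ht : IsTc (un x (sUn (image x tc))) x := by
      refine ⟨?_, fun z hz => (hm z).2 (Or.inl hz), ?_⟩
      · intro z hz w hw
        rw [hm] at hz ⊢
        right
        rcases hz with hz | ⟨y, hyx, hz⟩
        · exact ⟨z, hz, (hy z hz).2.1 w hw⟩
        · exact ⟨y, hyx, (hy y hyx).1 z hz w hw⟩
      · intro t' h1 h2 z hz
        rcases (hm z).1 hz with hz | ⟨y, hyx, hz⟩
        · exact h2 z hz
        · exact (hy y hyx).2.2 t' h1 (h1 y (h2 y hyx)) z hz
    exact ⟨_, ht, fun t' ht' => isTc_unique ht' ht⟩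

theorem isTc_tc (x : M) : IsTc (tc x) x := iota_spec (exists_tc x)

theorem tc_trs (x : M) : Trs (tc x) := (isTc_tc x).1

theorem sub_tc (x : M) : Sub x (tc x) := (isTc_tc x).2.1

theorem tc_least {x t : M} (h : Trs t) (h' : Sub x t) : Sub (tc x) t := (isTc_tc x).2.2 t h h'

theorem mem_tc {x z : M} : z ∈ tc x ↔ z ∈ x ∨ ∃ y : M, y ∈ x ∧ z ∈ tc y := by
  constructor
  · intro h
    have hd : DfF (fun w : Fin 1 → M => tc (w 0)) := DfF.Tc (DfF.var 0)
    have hm : ∀ z : M, z ∈ un x (sUn (image x tc)) ↔ z ∈ x ∨ ∃ y : M, y ∈ x ∧ z ∈ tc y := by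
      intro z
      rw [mem_un, mem_sUn]
      refine or_congr_right ?_
      constructor
      · rintro ⟨w, hw, hz⟩
        obtain ⟨y, hyx, rfl⟩ := (mem_image hd).1 hw
        exact ⟨y, hyx, hz⟩
      · rintro ⟨y, hyx, hz⟩
        exact ⟨tc y, (mem_image hd).2 ⟨y, hyx, rfl⟩, hz⟩
    rw [← hm]
    refine tc_least ?_ ?_ z h
    · intro z hz w hw
      rw [hm] at hz ⊢
      right
      rcases hz with hz | ⟨y, hyx, hz⟩
      · exact ⟨z, hz, sub_tc z w hw⟩
      · exact ⟨y, hyx, tc_trs y z hz w hw⟩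
    · exact fun z hz => (hm z).2 (Or.inl hz)
  · rintro (h | ⟨y, hy, h⟩)
    · exact sub_tc x z h
    · exact tc_least (tc_trs x) (tc_trs x y (sub_tc x y hy)) z h

theorem mem_tcs {x z : M} : z ∈ tcs x ↔ z ∈ tc x ∨ z = x := by
  unfold tcs
  rw [mem_un, mem_upair, or_self]

theorem self_mem_tcs (x : M) : x ∈ tcs x := mem_tcs.2 (Or.inr rfl)

theorem tcs_trs (x : M) : Trs (tcs x) := by
  intro z hz w hw
  rw [mem_tcs] at hz ⊢
  left
  rcases hz with hz | rfl
  · exact tc_trs x z hz w hw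
  · exact sub_tc _ w hw

theorem tcs_least {x t : M} (h : Trs t) (h' : x ∈ t) : Sub (tcs x) t := by
  intro z hz
  rcases mem_tcs.1 hz with hz | rfl
  · exact tc_least h (h x h') z hz
  · exact h'

theorem tc_eq {x z : M} : z ∈ tc x ↔ ∃ y : M, y ∈ x ∧ z ∈ tcs y := by
  rw [mem_tc]
  constructor
  · rintro (h | ⟨y, hy, h⟩)
    · exact ⟨z, h, self_mem_tcs z⟩
    · exact ⟨y, hy, mem_tcs.2 (Or.inl h)⟩
  · rintro ⟨y, hy, h⟩
    rcases mem_tcs.1 h with h | rfl
    · exact Or.inr ⟨y, hy, h⟩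
    · exact Or.inl hy

end std

/-! ### recursion -/

/-- `f` is the restriction of the class function defined by the step function `H` to `tcs x` -/
def Apx (H : M → M → M) (f x : M) : Prop :=
  IsFun f (tcs x) ∧ ∀ z : M, z ∈ tcs x → ap f z = H (lam z (fun y => ap f y)) z

/-- The class function with `rc H x = H (rc H restricted to x) x`. -/
noncomputable def rc (H : M → M → M) (x : M) : M := ap (iota (fun f => Apx H f x)) x

theorem Df.apx {H : M → M → (Fin n → M) → M}
    (hH : DfF (fun w : Fin (n + 2) → M => H (w 0) (w 1) (fun i => w i.succ.succ)))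
    {F X : (Fin n → M) → M} (hF : DfF F) (hX : DfF X) :
    Df (fun v => Apx (fun f x => H f x v) (F v) (X v)) := by
  refine Df.and (Df.isFun hF (DfF.Tcs hX)) ?_
  refine Df.all (P := fun z v => z ∈ tcs (X v) → ap (F v) z =
    H (lam z (fun y => ap (F v) y)) z v) ?_
  refine Df.imp (Df.mem (DfF.var 0) (DfF.wk (DfF.Tcs hX) Fin.succ))
    (Df.eq (DfF.Ap (DfF.wk hF Fin.succ) (DfF.var 0)) ?_)
  have h1 : DfF (fun w : Fin (n + 1) → M => lam (w 0) (fun y => ap (F fun i => w i.succ) y)) := by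
    refine DfF.Lam (DfF.var 0) (F := fun y w => ap (F fun i => w (Fin.succ i)) y) ?_
    exact DfF.Ap (DfF.wk hF (fun i => i.succ.succ)) (DfF.var 0)
  constructor
  exact Df.sub (n := n + 2) (P := fun a w => w 0 = H a (w 1) (fun i => w i.succ.succ)) (by
    exact DfF.out hH |>.reindex (fun i : Fin (n + 3) => Fin.cases 1 (fun i => Fin.cases 0
      (fun j => j.succ.succ) i) i)) (DfF.wk h1 Fin.succ)

theorem DfF.Rc {H : M → M → (Fin n → M) → M}
    (hH : DfF (fun w : Fin (n + 2) → M => H (w 0) (w 1) (fun i => w i.succ.succ)))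
    {X : (Fin n → M) → M} (hX : DfF X) : DfF (fun v => rc (fun f x => H f x v) (X v)) := by
  refine DfF.Ap ?_ hX
  refine DfF.Iota (P := fun f v => Apx (fun f x => H f x v) f (X v)) ?_
  refine Df.apx (n := n + 1) (H := fun f x w => H f x (fun i => w i.succ)) ?_ (DfF.var 0)
    (DfF.wk hX Fin.succ)
  exact DfF.wk hH (fun i : Fin (n + 2) => Fin.cases 0 (fun i => Fin.cases 1
    (fun j => j.succ.succ.succ) i) i)

theorem DfF.Rc' {H : M → M → M} (hH : DfF (fun w : Fin 2 → M => H (w 0) (w 1)))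
    {X : (Fin n → M) → M} (hX : DfF X) : DfF (fun v => rc H (X v)) :=
  DfF.Rc (H := fun f x _ => H f x) (DfF.wk hH ![0, 1]) hX

theorem image_congr {A : M} {F G : M → M} (h : ∀ x : M, x ∈ A → F x = G x) :
    image A F = image A G := by
  unfold image
  congr 1
  funext b
  refine propext (forall_congr' fun y => iff_congr Iff.rfl (exists_congr fun x =>
    and_congr_right fun hx => ?_))
  rw [h x hx]

theorem lam_congr {A : M} {F G : M → M} (h : ∀ x : M, x ∈ A → F x = G x) : lam A F = lam A G :=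
  image_congr fun x hx => by rw [h x hx]

section std

variable [Std M]

theorem apx_agree {H : M → M → M} {f g x x' : M} (hf : Apx H f x) (hg : Apx H g x') (z : M) :
    z ∈ tcs x → z ∈ tcs x' → ap f z = ap g z := by
  induction z using mem_ind with
  | h z ih =>
    intro h1 h2
    rw [hf.2 z h1, hg.2 z h2]
    congr 1
    exact lam_congr fun y hy => ih y hy (tcs_trs x z h1 y hy) (tcs_trs x' z h2 y hy)

theorem exists_apx {H : M → M → M} (hH : DfF (fun w : Fin 2 → M => H (w 0) (w 1))) (x : M) :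
    ∃! f : M, Apx H f x := by
  induction x using mem_ind with
  | h x ih =>
    have hΦ : DfF (fun w : Fin 1 → M => iota (fun f => Apx H f (w 0))) :=
      DfF.Iota (P := fun f w => Apx H f (w 0)) (Df.apx (n := 2) (H := fun f x _ => H f x)
        (DfF.wk hH ![0, 1]) (DfF.var 0) (DfF.var 1))
    obtain ⟨Φ, hΦe⟩ : ∃ Φ : M → M, Φ = fun y => iota (fun f => Apx H f y) := ⟨_, rfl⟩
    have hΦ' : DfF (fun w : Fin 1 → M => Φ (w 0)) := by
      rw [hΦe]
      exact hΦ
    have hy : ∀ y : M, y ∈ x → Apx H (Φ y) y := by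
      intro y h
      rw [hΦe]
      exact iota_spec (ih y h)
    obtain ⟨g, hg⟩ : ∃ g : M, g = sUn (image x Φ) := ⟨_, rfl⟩
    have hrel : ∀ u w : M, Rel g u w ↔ ∃ y : M, y ∈ x ∧ Rel (Φ y) u w := by
      intro u w
      rw [hg, rel_iff, mem_sUn]
      constructor
      · rintro ⟨b, hb, h⟩
        obtain ⟨y, hyx, rfl⟩ := (mem_image hΦ').1 hb
        exact ⟨y, hyx, rel_iff.2 h⟩
      · rintro ⟨y, hyx, h⟩
        exact ⟨Φ y, (mem_image hΦ').2 ⟨y, hyx, rfl⟩, rel_iff.1 h⟩
    have hap : ∀ y u : M, y ∈ x → u ∈ tcs y → ap g u = ap (Φ y) u := by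
      intro y u hyx hu
      refine iota_eq ⟨ap (Φ y) u, (hrel _ _).2 ⟨y, hyx, (hy y hyx).1.rel_ap hu⟩, ?_⟩
        ((hrel _ _).2 ⟨y, hyx, (hy y hyx).1.rel_ap hu⟩)
      intro w hw
      obtain ⟨y', hy', hr⟩ := (hrel _ _).1 hw
      have hu' := (hy y' hy').1.dom hr
      rw [← (hy y' hy').1.ap_eq hu' hr]
      exact apx_agree (hy y' hy') (hy y hyx) u hu' hu
    have hstar : ∀ u : M, u ∈ tc x → ap g u = H (lam u (fun v => ap g v)) u := by
      intro u hu
      obtain ⟨y, hyx, huy⟩ := tc_eq.1 hu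
      rw [hap y u hyx huy, (hy y hyx).2 u huy]
      congr 1
      exact lam_congr fun v hv => (hap y v hyx (tcs_trs y u huy v hv)).symm
    have hL : DfF (fun w : Fin 1 → M => H (lam (w 0) (fun v => ap g v)) (w 0)) := by
      refine DfF.comp2 hH ?_ (DfF.var 0)
      exact DfF.Lam (DfF.var 0) (F := fun v _ => ap g v) (DfF.Ap (DfF.const g) (DfF.var 0))
    have hsub : ∀ z : M, z ∈ tcs x → Sub z (tc x) := by
      intro z hz
      rcases mem_tcs.1 hz with hz | rfl
      · exact tc_trs x z hz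
      · exact sub_tc _
    have key : Apx H (lam (tcs x) (fun z => H (lam z (fun v => ap g v)) z)) x := by
      refine ⟨isFun_lam hL, fun z hz => ?_⟩
      rw [ap_lam hL hz]
      congr 1
      refine lam_congr fun v hv => ?_
      have h1 := hsub z hz v hv
      rw [ap_lam hL (mem_tcs.2 (Or.inl h1))]
      exact hstar v h1
    refine ⟨_, key, fun f hf => ?_⟩
    exact hf.1.ext key.1 fun z hz => apx_agree hf key z hz hz

theorem rc_eq {H : M → M → M} (hH : DfF (fun w : Fin 2 → M => H (w 0) (w 1))) (x : M) :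
    rc H x = H (lam x (rc H)) x := by
  have h0 : ∀ y : M, Apx H (iota (fun f => Apx H f y)) y := fun y =>
    iota_spec (P := fun f => Apx H f y) (exists_apx hH y)
  unfold rc
  rw [(h0 x).2 x (self_mem_tcs x)]
  congr 1
  exact lam_congr fun y hy => apx_agree (h0 x) (h0 y) y
    (tcs_trs x x (self_mem_tcs x) y hy) (self_mem_tcs y)

/-- recursion where the step function uses only the values at the elements -/
theorem rc_eq' {H : M → M → M} (hH : DfF (fun w : Fin 2 → M => H (w 0) (w 1))) {x : M}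
    {K : M → (M → M) → M} (hK : ∀ (f y : M), H f y = K y (fun z => ap f z))
    (hc : ∀ (y : M) (F G : M → M), (∀ z : M, z ∈ y → F z = G z) → K y F = K y G) :
    rc H x = K x (rc H) := by
  rw [rc_eq hH, hK]
  refine hc _ _ _ fun z hz => ?_
  exact ap_lam (DfF.Rc' hH (DfF.var 0)) hz

end std

end Pool.Agent.H.MP_a163f2_lc
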